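import Mathlib

/-! General lemmas on resolutions given by matrices over a group ring (copied from helper294/helper158). -/

namespace Pool.Agent.H312PD

/-- the sign `(-1)^c` -/
def sg (c : ℤ) : ℤ := ((Int.negOnePow c : ℤˣ) : ℤ)

lemma sg_add (c d : ℤ) : sg (c + d) = sg c * sg d := by
  simp [sg, Int.negOnePow_add]

@[simp] lemma sg_zero : sg 0 = 1 := by simp [sg]
@[simp] lemma sg_one : sg 1 = -1 := by simp [sg]
lemma sg_mul_self (c : ℤ) : sg c * sg c = 1 := by
  rw [← sg_add, sg]
  have : Even (c + c) := ⟨c, rfl⟩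
  rw [Int.negOnePow_even _ this]; rfl
@[simp] lemma sg_neg (c : ℤ) : sg (-c) = sg c := by simp [sg]

end Pool.Agent.H312PD

section part2
namespace Pool.Agent.H312PD

open Finsupp

/-- operators with the regular sequence property -/
structure Tower (M M1 M2 : Type) [AddCommGroup M] [AddCommGroup M1] [AddCommGroup M2] where
  D1 : M →+ M
  D2 : M →+ M
  D3 : M →+ M
  E2 : M1 →+ M1
  E3 : M2 →+ M2
  p1 : M →+ M1
  p2 : M1 →+ M2
  p3 : M2 →+ ℤ
  inj1 : Function.Injective D1
  inj2 : Function.Injective E2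
  inj3 : Function.Injective E3
  z1 : ∀ m, p1 (D1 m) = 0
  z2 : ∀ m, p2 (E2 m) = 0
  ex1 : ∀ m, p1 m = 0 → ∃ k, D1 k = m
  ex2 : ∀ m, p2 m = 0 → ∃ k, E2 k = m
  ex3 : ∀ m, p3 m = 0 → ∃ k, E3 k = m
  s1 : Function.Surjective p1
  s2 : Function.Surjective p2
  c2 : ∀ m, p1 (D2 m) = E2 (p1 m)
  c3 : ∀ m, p2 (p1 (D3 m)) = E3 (p2 (p1 m))

namespace Tower
variable {M M1 M2 : Type} [AddCommGroup M] [AddCommGroup M1] [AddCommGroup M2] (T : Tower M M1 M2)

include T

lemma r1 {m : M} (h : T.D1 m = 0) : m = 0 := T.inj1 (by rw [h, map_zero])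

lemma r2 {m n : M} (h : T.D2 m = T.D1 n) : ∃ k, T.D1 k = m := by
  apply T.ex1
  apply T.inj2
  rw [← T.c2, h, T.z1, map_zero]

lemma lift2 {m : M} (h : T.p2 (T.p1 m) = 0) : ∃ c d, m = T.D1 c + T.D2 d := by
  obtain ⟨u, hu⟩ := T.ex2 _ h
  obtain ⟨v, rfl⟩ := T.s1 u
  have : T.p1 (m - T.D2 v) = 0 := by rw [map_sub, T.c2, hu, sub_self]
  obtain ⟨w, hw⟩ := T.ex1 _ this
  exact ⟨w, v, by rw [hw]; abel⟩

lemma r3 {m a b : M} (h : T.D3 m = T.D1 a + T.D2 b) : ∃ c d, m = T.D1 c + T.D2 d := by
  apply T.lift2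
  apply T.inj3
  rw [← T.c3, h, map_add, T.z1, zero_add, T.c2, T.z2, map_zero]

lemma r4 {m : M} (h : T.p3 (T.p2 (T.p1 m)) = 0) : ∃ a b c, m = T.D1 a + T.D2 b + T.D3 c := by
  obtain ⟨u, hu⟩ := T.ex3 _ h
  obtain ⟨v, rfl⟩ := T.s2 u
  obtain ⟨w, rfl⟩ := T.s1 v
  have : T.p2 (T.p1 (m - T.D3 w)) = 0 := by rw [map_sub, map_sub, T.c3, hu, sub_self]
  obtain ⟨c, d, hcd⟩ := T.lift2 this
  exact ⟨c, d, w, by rw [← hcd]; abel⟩

end Tower

section shift
variable {S S' : Type}

/-- shift operator minus the identity -/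
noncomputable def sh (σ : S → S) : (S →₀ ℤ) →+ (S →₀ ℤ) :=
  Finsupp.mapDomain.addMonoidHom σ - AddMonoidHom.id _

lemma sh_apply (σ : S → S) (m : S →₀ ℤ) : sh σ m = mapDomain σ m - m := rfl

lemma sh_single (σ : S → S) (s : S) (r : ℤ) : sh σ (single s r) = single (σ s) r - single s r := by
  rw [sh_apply, mapDomain_single]

lemma sh_injective (σ : S → S) (hσ : Function.Injective σ) (n : S → ℤ) (hn : ∀ s, n (σ s) = n s + 1) :
    Function.Injective (sh σ) := by
  rw [injective_iff_map_eq_zero]
  intro m hm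
  rw [sh_apply, sub_eq_zero] at hm
  by_contra hne
  have hs : m.support.Nonempty := support_nonempty_iff.2 hne
  obtain ⟨s, hs1, hs2⟩ := Finset.exists_max_image m.support n hs
  have h1 : m (σ s) ≠ 0 := by
    rw [← hm, mapDomain_apply hσ]
    exact mem_support_iff.1 hs1
  have h2 := hs2 _ (mem_support_iff.2 h1)
  rw [hn] at h2
  lia

lemma sh_ker (σ : Equiv.Perm S) (π : S → S') (ι : S' → S) (n : S → ℤ)
    (h : ∀ s, s = (σ ^ n s) (ι (π s))) (m : S →₀ ℤ) (hm : mapDomain π m = 0) :
    ∃ k, sh σ k = m := by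
  have key : ∀ m : S →₀ ℤ, ∃ k, sh σ k = m - mapDomain ι (mapDomain π m) := by
    intro m
    induction m using Finsupp.induction_linear with
    | zero => exact ⟨0, by simp⟩
    | add f g hf hg =>
      obtain ⟨k, hk⟩ := hf
      obtain ⟨l, hl⟩ := hg
      exact ⟨k + l, by rw [map_add, hk, hl, mapDomain_add, mapDomain_add]; abel⟩
    | single s r =>
      rw [mapDomain_single, mapDomain_single]
      have hz : ∀ j : ℤ, ∀ u : S, ∃ k, sh σ k = single ((σ ^ j) u) r - single u r := by
        intro j u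
        induction j using Int.induction_on with
        | zero => exact ⟨0, by simp⟩
        | succ j ih =>
          obtain ⟨k, hk⟩ := ih
          refine ⟨k + single ((σ ^ (j : ℤ)) u) r, ?_⟩
          rw [map_add, hk, sh_single, add_comm (j : ℤ) 1, zpow_add, zpow_one]
          simp
        | pred j ih =>
          obtain ⟨k, hk⟩ := ih
          refine ⟨k - single ((σ ^ (-(j : ℤ) - 1)) u) r, ?_⟩
          have : σ ((σ ^ (-(j : ℤ) - 1)) u) = (σ ^ (-(j : ℤ))) u := by
            rw [← Equiv.Perm.mul_apply, ← zpow_one_add]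
            congr 2
            ring
          rw [map_sub, hk, sh_single, this]
          abel
      obtain ⟨k, hk⟩ := hz (n s) (ι (π s))
      rw [← h s] at hk
      exact ⟨k, hk⟩
  obtain ⟨k, hk⟩ := key m
  exact ⟨k, by rw [hk, hm]; simp⟩

lemma sh_ker' (σ : Equiv.Perm S) (π : S → S') (ι : S' → S) (n : S → ℤ)
    (h1 : ∀ s, n (σ s) = n s + 1) (h2 : ∀ s, π (σ s) = π s) (h3 : ∀ y, n (ι y) = 0)
    (h4 : ∀ y, π (ι y) = y) (h5 : ∀ s u, π s = π u → n s = n u → s = u)
    (m : S →₀ ℤ) (hm : mapDomain π m = 0) : ∃ k, sh σ k = m := by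
  have a1 : ∀ (j : ℤ) (u : S), n ((σ ^ j) u) = n u + j ∧ π ((σ ^ j) u) = π u := by
    intro j u
    induction j using Int.induction_on with
    | zero => simp
    | succ j ih =>
      have : (σ ^ ((j : ℤ) + 1)) u = σ ((σ ^ (j : ℤ)) u) := by
        rw [← Equiv.Perm.mul_apply, ← zpow_one_add, add_comm]
      rw [this, h1, h2, ih.1, ih.2]
      exact ⟨by ring, rfl⟩
    | pred j ih =>
      have : σ ((σ ^ (-(j : ℤ) - 1)) u) = (σ ^ (-(j : ℤ))) u := by
        rw [← Equiv.Perm.mul_apply, ← zpow_one_add]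
        congr 2
        ring
      rw [← this, h1, h2] at ih
      exact ⟨by linarith [ih.1], ih.2⟩
  apply sh_ker σ π ι n _ m hm
  intro s
  apply h5
  · rw [(a1 _ _).2, h4]
  · rw [(a1 _ _).1, h3, zero_add]

lemma map_sh (σ : S → S) (π : S → S') (h : ∀ s, π (σ s) = π s) (m : S →₀ ℤ) :
    mapDomain π (sh σ m) = 0 := by
  rw [sh_apply]
  have : mapDomain π (mapDomain σ m - m) = mapDomain π (mapDomain σ m) - mapDomain π m :=
    map_sub (Finsupp.mapDomain.addMonoidHom π) _ _
  rw [this, ← mapDomain_comp]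
  have h2 : π ∘ σ = π := funext h
  rw [h2, sub_self]

lemma map_sh_comm (σ : S → S) (σ' : S' → S') (π : S → S') (h : ∀ s, π (σ s) = σ' (π s)) (m : S →₀ ℤ) :
    mapDomain π (sh σ m) = sh σ' (mapDomain π m) := by
  rw [sh_apply, sh_apply]
  have : mapDomain π (mapDomain σ m - m) = mapDomain π (mapDomain σ m) - mapDomain π m :=
    map_sub (Finsupp.mapDomain.addMonoidHom π) _ _
  rw [this, ← mapDomain_comp, ← mapDomain_comp]
  have h2 : π ∘ σ = σ' ∘ π := funext h
  rw [h2]

end shift

end Pool.Agent.H312PD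
end part2

section part5
namespace Pool.Agent.H312PD

open CategoryTheory Finsupp

section general

variable {k G : Type} [CommRing k] [Group G]

/-! ### modules given by matrices -/

lemma freeLift_apply {α : Type} [Fintype α] {V : Type} [AddCommGroup V] [Module k V]
    (σ : Representation k G V) (F : α → V) (f : α →₀ MonoidAlgebra k G) :
    Representation.freeLift σ F f = ∑ i, σ.asAlgebraHom (f i) (F i) := by
  classical
  induction f using Finsupp.induction_linear with
  | zero => simp
  | add f g hf hg => simp [hf, hg, Finset.sum_add_distrib]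
  | single i r =>
    rw [Finset.sum_eq_single i]
    · rw [Finsupp.single_eq_same]
      induction r using MonoidAlgebra.induction_linear with
      | zero => simp
      | add x y hx hy => rw [Finsupp.single_add, map_add, hx, hy, map_add]; rfl
      | single g r => rw [Representation.freeLift_single_single, Representation.asAlgebraHom_single]; rfl
    · intro j _ hj
      rw [Finsupp.single_eq_of_ne hj, map_zero]; rfl
    · intro h; exact absurd (Finset.mem_univ i) h

lemma free_asAlgebraHom_apply {α : Type} (r : MonoidAlgebra k G) (w : α →₀ MonoidAlgebra k G) (j : α) :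
    ((Representation.free k G α).asAlgebraHom r w) j = r * w j := by
  induction r using MonoidAlgebra.induction_linear with
  | zero => simp
  | add x y hx hy => rw [map_add, LinearMap.add_apply, Finsupp.add_apply, hx, hy, add_mul]
  | single g r =>
    rw [Representation.asAlgebraHom_single, LinearMap.smul_apply, Finsupp.smul_apply]
    induction w using Finsupp.induction_linear with
    | zero => simp
    | add u v hu hv =>
      rw [map_add, Finsupp.add_apply, smul_add, hu, hv, Finsupp.add_apply, mul_add]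
    | single i s =>
      rw [Representation.finsupp_single]
      by_cases h : j = i
      · subst h
        rw [Finsupp.single_eq_same, Finsupp.single_eq_same]
        induction s using MonoidAlgebra.induction_linear with
        | zero => simp
        | add x y hx hy => rw [map_add, smul_add, hx, hy, mul_add]
        | single h s => simp [MonoidAlgebra.single_mul_single]
      · rw [Finsupp.single_eq_of_ne h, Finsupp.single_eq_of_ne h]; simp

variable (m : ℕ → ℕ) (A : ∀ n, Fin (m (n + 1)) → Fin (m n) → MonoidAlgebra k G)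

variable (k G) in
/-- free module of rank `m n` -/
noncomputable abbrev XX (n : ℕ) : Rep k G := Rep.free k G (Fin (m n))

noncomputable def row (n : ℕ) (i : Fin (m (n + 1))) : Fin (m n) →₀ MonoidAlgebra k G :=
  Finsupp.equivFunOnFinite.symm (A n i)

lemma row_apply (n : ℕ) (i : Fin (m (n + 1))) (j : Fin (m n)) : row m A n i j = A n i j := rfl

/-- the differential -/
noncomputable def dd (n : ℕ) : XX k G m (n + 1) ⟶ XX k G m n := Rep.freeLift k G _ (row m A n)

lemma dd_apply (n : ℕ) (f : Fin (m (n + 1)) →₀ MonoidAlgebra k G) (j : Fin (m n)) :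
    ((dd m A n).hom f) j = ∑ i, f i * A n i j := by
  have h : (dd m A n).hom f = ∑ i, (Representation.free k G (Fin (m n))).asAlgebraHom (f i) (row m A n i) :=
    freeLift_apply (Representation.free k G (Fin (m n))) (row m A n) f
  rw [h, Finsupp.finsetSum_apply]
  refine Finset.sum_congr rfl fun i _ => ?_
  rw [free_asAlgebraHom_apply, row_apply]

lemma dd_single (n : ℕ) (i : Fin (m (n + 1))) (j : Fin (m n)) :
    ((dd m A n).hom (single i (MonoidAlgebra.single 1 1))) j = A n i j := by
  rw [dd_apply, Finset.sum_eq_single i]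
  · rw [Finsupp.single_eq_same]; exact one_mul _
  · intro l _ hl
    rw [Finsupp.single_eq_of_ne hl, zero_mul]
  · intro h; exact absurd (Finset.mem_univ i) h

lemma dd_dd (hA : ∀ n i l, ∑ j, A (n + 1) i j * A n j l = 0) (n : ℕ) :
    dd m A (n + 1) ≫ dd m A n = 0 := by
  apply Rep.free_ext
  intro i
  ext l : 1
  change ((dd m A n).hom ((dd m A (n + 1)).hom (single i (MonoidAlgebra.single 1 1)))) l = 0
  rw [dd_apply]
  have : ∀ j, ((dd m A (n + 1)).hom (single i (MonoidAlgebra.single 1 1))) j = A (n + 1) i j :=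
    dd_single m A (n + 1) i
  simp_rw [this]
  exact hA n i l

/-- the chain complex -/
noncomputable abbrev cx (hA : ∀ n i l, ∑ j, A (n + 1) i j * A n j l = 0) : ChainComplex (Rep k G) ℕ :=
  ChainComplex.of (XX k G m) (dd m A) (dd_dd m A hA)

lemma cx_d (hA : ∀ n i l, ∑ j, A (n + 1) i j * A n j l = 0) (n : ℕ) :
    (cx m A hA).d (n + 1) n = dd m A n := ChainComplex.of_d _ _ _

variable (k G) in
/-- the augmentation on the degree zero module -/
noncomputable def eps : XX k G m 0 ⟶ Rep.trivial k G k := Rep.freeLift k G _ (fun _ => (1 : k))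

variable (k G) in
/-- augmentation of the group ring -/
noncomputable def ag (r : MonoidAlgebra k G) : k := (Representation.trivial k G k).asAlgebraHom r 1

lemma eps_apply (f : Fin (m 0) →₀ MonoidAlgebra k G) : (eps k G m).hom f = ∑ i, ag k G (f i) := 
  freeLift_apply (Representation.trivial k G k) (fun _ => (1 : k)) f

lemma dd_eps (h0 : ∀ i, ∑ j, ag k G (A 0 i j) = 0) : dd m A 0 ≫ eps k G m = 0 := by
  apply Rep.free_ext
  intro i
  change (eps k G m).hom ((dd m A 0).hom (single i (MonoidAlgebra.single 1 1))) = 0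
  rw [eps_apply]
  have : ∀ j, ((dd m A 0).hom (single i (MonoidAlgebra.single 1 1))) j = A 0 i j :=
    dd_single m A 0 i
  simp_rw [this]
  exact h0 i

noncomputable def resπ (hA : ∀ n i l, ∑ j, A (n + 1) i j * A n j l = 0)
    (h0 : ∀ i, ∑ j, ag k G (A 0 i j) = 0) :
    cx m A hA ⟶ (ChainComplex.single₀ (Rep k G)).obj (Rep.trivial k G k) :=
  ((cx m A hA).toSingle₀Equiv _).symm ⟨eps k G m, by
    rw [cx_d m A hA 0]; exact dd_eps m A h0⟩

lemma rep_exact {S : ShortComplex (Rep.{0} k G)}
    (h : ∀ x : S.X₂, S.g.hom x = 0 → ∃ y : S.X₁, S.f.hom y = x) : S.Exact := by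
  apply (forget₂ _ (ModuleCat k)).reflects_exact_of_faithful
  rw [ShortComplex.moduleCat_exact_iff]
  exact h

lemma res_quasiIso (hA : ∀ n i l, ∑ j, A (n + 1) i j * A n j l = 0) (h0 : ∀ i, ∑ j, ag k G (A 0 i j) = 0)
    (hε : ∀ x : k, ∃ f : Fin (m 0) →₀ MonoidAlgebra k G, ∑ i, ag k G (f i) = x)
    (hex0 : ∀ f : Fin (m 0) →₀ MonoidAlgebra k G, ∑ i, ag k G (f i) = 0 →
      ∃ g : Fin (m 1) →₀ MonoidAlgebra k G, ∀ j, f j = ∑ i, g i * A 0 i j)
    (hex : ∀ n, ∀ f : Fin (m (n + 1)) →₀ MonoidAlgebra k G, (∀ l, ∑ j, f j * A n j l = 0) →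
      ∃ g : Fin (m (n + 2)) →₀ MonoidAlgebra k G, ∀ j, f j = ∑ i, g i * A (n + 1) i j) :
    QuasiIso (resπ m A hA h0) where
  quasiIsoAt n := by
    induction n with
    | zero =>
      simp only [resπ]
      rw [ChainComplex.quasiIsoAt₀_iff, ShortComplex.quasiIso_iff_of_zeros' _ rfl rfl rfl]
      have hg : ((HomologicalComplex.shortComplexFunctor' (Rep.{0} k G) (ComplexShape.down ℕ) 1 0 0).map
          (((cx m A hA).toSingle₀Equiv (Rep.trivial k G k)).symm ⟨eps k G m, by
            rw [cx_d m A hA 0]; exact dd_eps m A h0⟩)).τ₂ = eps k G m := by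
        simp [ChainComplex.toSingle₀Equiv]
      constructor
      · apply rep_exact
        intro x hx
        have h1 : (eps k G m).hom x = 0 := by
          rw [← hg]; exact hx
        have h2 := hex0 x ((eps_apply m x).symm.trans h1)
        obtain ⟨g, hg'⟩ := h2
        refine ⟨g, ?_⟩
        change ((cx m A hA).d 1 0).hom g = x
        rw [cx_d m A hA 0]
        refine Finsupp.ext fun j => ?_
        rw [dd_apply]
        exact (hg' j).symm
      · rw [Rep.epi_iff_surjective]
        intro x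
        obtain ⟨f, hf⟩ := hε x
        refine ⟨f, ?_⟩
        have := (eps_apply m f).trans hf
        rw [← hg] at this
        exact this
    | succ n _ =>
      rw [quasiIsoAt_iff_exactAt' (hL := ChainComplex.exactAt_succ_single_obj ..),
          HomologicalComplex.exactAt_iff' _ (n + 2) (n + 1) n (by simp) (by simp)]
      apply rep_exact
      intro x hx
      have hx' : (dd m A n).hom x = 0 := by rw [← cx_d m A hA n]; exact hx
      obtain ⟨g, hg⟩ := hex n x (by
        intro l
        have := dd_apply m A n x l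
        rw [hx'] at this
        exact this.symm)
      refine ⟨g, ?_⟩
      change ((cx m A hA).d (n + 2) (n + 1)).hom g = x
      rw [cx_d m A hA (n + 1)]
      refine Finsupp.ext fun j => ?_
      rw [dd_apply]
      exact (hg j).symm

end general

end Pool.Agent.H312PD
end part5

section part6
namespace Pool.Agent.H312PD

open CategoryTheory Finsupp

section general2

variable {k G : Type} [CommRing k] [Group G]
variable (m : ℕ → ℕ) (A : ∀ n, Fin (m (n + 1)) → Fin (m n) → MonoidAlgebra k G)

/-- all hypotheses on the matrices -/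
structure Good : Prop where
  hA : ∀ n i l, ∑ j, A (n + 1) i j * A n j l = 0
  h0 : ∀ i, ∑ j, ag k G (A 0 i j) = 0
  hε : ∀ x : k, ∃ f : Fin (m 0) →₀ MonoidAlgebra k G, ∑ i, ag k G (f i) = x
  hex0 : ∀ f : Fin (m 0) →₀ MonoidAlgebra k G, ∑ i, ag k G (f i) = 0 →
      ∃ g : Fin (m 1) →₀ MonoidAlgebra k G, ∀ j, f j = ∑ i, g i * A 0 i j
  hex : ∀ n, ∀ f : Fin (m (n + 1)) →₀ MonoidAlgebra k G, (∀ l, ∑ j, f j * A n j l = 0) →
      ∃ g : Fin (m (n + 2)) →₀ MonoidAlgebra k G, ∀ j, f j = ∑ i, g i * A (n + 1) i j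

variable {m A} (H : Good m A)

noncomputable def Good.res : ProjectiveResolution (Rep.trivial k G k) where
  complex := cx m A H.hA
  projective n := (inferInstance : Projective (XX k G m n))
  π := resπ m A H.hA H.h0
  quasiIso := res_quasiIso m A H.hA H.h0 H.hε H.hex0 H.hex

noncomputable def Good.iso (M : Rep k G) (n : ℕ) :
    groupCohomology M n ≅ ((cx m A H.hA).linearYonedaObj k M).homology n :=
  groupCohomologyIso M n H.res

include H

lemma hom_d (M : Rep k G) (n : ℕ) (y : XX k G m n ⟶ M) :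
    ((cx m A H.hA).linearYonedaObj k M).d n (n + 1) y = dd m A n ≫ y := by
  rw [← cx_d m A H.hA n]
  rfl

lemma Good.vanish_succ (M : Rep k G) (n : ℕ)
    (h : ∀ x : XX k G m (n + 1) ⟶ M, dd m A (n + 1) ≫ x = 0 → ∃ y : XX k G m n ⟶ M, dd m A n ≫ y = x) :
    Subsingleton (groupCohomology M (n + 1)) := by
  have h1 : ((cx m A H.hA).linearYonedaObj k M).ExactAt (n + 1) := by
    rw [HomologicalComplex.exactAt_iff' _ n (n + 1) (n + 2) (by simp) (by simp)]
    rw [ShortComplex.moduleCat_exact_iff]
    intro x hx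
    obtain ⟨y, hy⟩ := h x (by rw [← hom_d H M (n + 1)]; exact hx)
    exact ⟨y, by rw [← hy, ← hom_d H M n]; rfl⟩
  have h2 := (HomologicalComplex.exactAt_iff_isZero_homology _ _).1 h1
  have h3 : Limits.IsZero (groupCohomology M (n + 1)) := h2.of_iso (H.iso M (n + 1))
  exact ModuleCat.subsingleton_of_isZero h3

lemma Good.vanish_zero (M : Rep k G)
    (h : ∀ x : XX k G m 0 ⟶ M, dd m A 0 ≫ x = 0 → x = 0) :
    Subsingleton (groupCohomology M 0) := by
  have h1 : ((cx m A H.hA).linearYonedaObj k M).ExactAt 0 := by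
    rw [HomologicalComplex.exactAt_iff' _ 0 0 1 (by simp) (by simp)]
    rw [ShortComplex.moduleCat_exact_iff]
    intro x hx
    have := h x (by rw [← hom_d H M 0]; exact hx)
    exact ⟨0, by rw [this]; exact map_zero _⟩
  have h2 := (HomologicalComplex.exactAt_iff_isZero_homology _ _).1 h1
  have h3 : Limits.IsZero (groupCohomology M 0) := h2.of_iso (H.iso M 0)
  exact ModuleCat.subsingleton_of_isZero h3


lemma Good.top (M : Rep k G) (n : ℕ) (hz : ∀ x : XX k G m (n + 2) ⟶ M, x = 0)
    (ψ : (XX k G m (n + 1) ⟶ M) →ₗ[k] k) (hs : Function.Surjective ψ)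
    (hk : ∀ x, ψ x = 0 ↔ ∃ y : XX k G m n ⟶ M, dd m A n ≫ y = x) :
    Nonempty (groupCohomology M (n + 1) ≃ₗ[k] k) := by
  let S := ((cx m A H.hA).linearYonedaObj k M).sc' n (n + 1) (n + 2)
  have e1 : groupCohomology M (n + 1) ≅ S.homology :=
    H.iso M (n + 1) ≪≫ HomologicalComplex.homologyIsoSc' _ n (n + 1) (n + 2) (by simp) (by simp)
  have e2 : S.homology ≅ ModuleCat.of k (LinearMap.ker S.g.hom ⧸ LinearMap.range S.moduleCatToCycles) :=
    S.moduleCatHomologyIso
  let φ : LinearMap.ker S.g.hom →ₗ[k] k := ψ.comp (LinearMap.ker S.g.hom).subtype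
  have hφ : Function.Surjective φ := by
    intro c
    obtain ⟨x, hx⟩ := hs c
    exact ⟨⟨x, hz _⟩, hx⟩
  have hker : LinearMap.range S.moduleCatToCycles = LinearMap.ker φ := by
    ext ⟨x, hx⟩
    rw [LinearMap.mem_ker, LinearMap.mem_range]
    constructor
    · rintro ⟨y, hy⟩
      apply (hk x).2
      refine ⟨y, ?_⟩
      rw [← hom_d H M n]
      exact congrArg Subtype.val hy
    · intro hx2
      obtain ⟨y, hy⟩ := (hk x).1 hx2
      rw [← hom_d H M n] at hy
      exact ⟨y, Subtype.ext hy⟩
  exact ⟨(e1 ≪≫ e2).toLinearEquiv.trans ((Submodule.quotEquivOfEq _ _ hker).trans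
    (φ.quotKerEquivOfSurjective hφ))⟩

omit H in
/-- morphisms out of the free modules -/
lemma comp_eq_iff (M : Rep k G) (n : ℕ) (y : XX k G m n ⟶ M) (x : XX k G m (n + 1) ⟶ M) :
    dd m A n ≫ y = x ↔ ∀ i, ∑ j, M.ρ.asAlgebraHom (A n i j) (y.hom (single j (MonoidAlgebra.single 1 1))) =
      x.hom (single i (MonoidAlgebra.single 1 1)) := by
  have key : ∀ i, (dd m A n ≫ y).hom (single i (MonoidAlgebra.single 1 1)) =
      ∑ j, M.ρ.asAlgebraHom (A n i j) (y.hom (single j (MonoidAlgebra.single 1 1))) := by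
    intro i
    have hy : y = Rep.freeLift k G _ (fun j => y.hom (single j (MonoidAlgebra.single 1 1))) := by
      apply Rep.free_ext
      intro j
      change _ = Representation.freeLift M.ρ _ _
      rw [Representation.freeLift_single_single, one_smul, map_one]
      rfl
    have h1 : (dd m A n ≫ y).hom (single i (MonoidAlgebra.single 1 1)) =
      y.hom ((dd m A n).hom (single i (MonoidAlgebra.single 1 1))) := rfl
    rw [h1]
    conv_lhs => rw [hy]
    have h2 := freeLift_apply M.ρ (fun j => y.hom (single j (MonoidAlgebra.single 1 1)))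
      ((dd m A n).hom (single i (MonoidAlgebra.single 1 1)))
    refine h2.trans ?_
    refine Finset.sum_congr rfl fun j _ => ?_
    have h3 : ((dd m A n).hom (single i (MonoidAlgebra.single 1 1))) j = A n i j := dd_single m A n i j
    rw [h3]
  constructor
  · intro h i
    rw [← key, h]
  · intro h
    apply Rep.free_ext
    intro i
    rw [key, h]

omit H in
lemma hom_eq_zero_iff (M : Rep k G) (n : ℕ) (x : XX k G m n ⟶ M) :
    x = 0 ↔ ∀ i, x.hom (single i (MonoidAlgebra.single 1 1)) = 0 := by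
  constructor
  · rintro rfl i; rfl
  · intro h
    apply Rep.free_ext
    intro i
    rw [h]; rfl

omit H in
lemma lift_single (M : Rep k G) (n : ℕ) (F : Fin (m n) → M) (i : Fin (m n)) :
    (Rep.freeLift k G M F).hom (single i (MonoidAlgebra.single 1 1)) = F i := by
  change Representation.freeLift M.ρ _ _ = _
  rw [Representation.freeLift_single_single, one_smul, map_one]
  rfl

end general2

end Pool.Agent.H312PD
end part6

namespace Pool.Agent.H312PD
section fp
variable {G : Type} [Group G]

lemma ag_add (r s : MonoidAlgebra ℤ G) : ag ℤ G (r + s) = ag ℤ G r + ag ℤ G s := by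
  unfold ag; rw [map_add]; rfl

lemma ag_zero : ag ℤ G 0 = 0 := by
  unfold ag; rw [map_zero]; rfl

lemma ag_single (g : G) (r : ℤ) : ag ℤ G (MonoidAlgebra.single g r) = r := by
  unfold ag; rw [Representation.asAlgebraHom_single]; simp

lemma ag_mul (r s : MonoidAlgebra ℤ G) : ag ℤ G (r * s) = ag ℤ G r * ag ℤ G s := by
  induction r using MonoidAlgebra.induction_linear with
  | zero => simp [ag_zero]
  | add x y hx hy => rw [add_mul, ag_add, hx, hy, ag_add, add_mul]
  | single g r =>
    induction s using MonoidAlgebra.induction_linear with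
    | zero => simp [ag_zero]
    | add x y hx hy => rw [mul_add, ag_add, hx, hy, ag_add, mul_add]
    | single h s => rw [MonoidAlgebra.single_mul_single, ag_single, ag_single, ag_single]

end fp
end Pool.Agent.H312PD
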