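import Mathlib
import Pool.Agent.H312PD.Gen

/-! The twisted Koszul resolution of length three and its dual. -/

namespace Pool.Agent.H312PD

/-- ring level data for `ℤ² ⋊ ℤ` with diagonal action: `z`, `x` stand for `Z - 1`, `X - 1`. -/
structure Kos (R : Type) [Ring R] where
  z : R
  x : R
  T : R
  al : R
  ali : R
  be : R
  bei : R
  xz : x * z = z * x
  alz : al * z = z * al
  alx : al * x = x * al
  bez : be * z = z * be
  bex : be * x = x * be
  albe : al * be = be * al
  a1 : al * ali = 1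
  a2 : ali * al = 1
  b1 : be * bei = 1
  b2 : bei * be = 1
  Tz : T * z = al * z * T
  Tx : T * x = be * x * T
  r1 : ∀ m, m * z = 0 → m = 0
  r2 : ∀ m n, m * x = n * z → ∃ k, m = k * z
  r3 : ∀ m a b, m * (T - 1) = a * z + b * x → ∃ c d, m = c * z + d * x
  l1 : ∀ m, z * m = 0 → m = 0
  l2 : ∀ m n, x * m = z * n → ∃ k, m = z * k
  l3 : ∀ m a b, (T - al * be) * m = z * a + x * b → ∃ c d, m = z * c + x * d

namespace Kos
variable {R : Type} [Ring R] (K : Kos R)

lemma alr {m : R} (h : m * K.al = 0) : m = 0 := by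
  have h1 : m * K.al * K.ali = 0 := by rw [h, zero_mul]
  rwa [mul_assoc, K.a1, mul_one] at h1

lemma all {m : R} (h : K.al * m = 0) : m = 0 := by
  have h1 : K.ali * (K.al * m) = 0 := by rw [h, mul_zero]
  rwa [← mul_assoc, K.a2, one_mul] at h1

lemma aliz : K.ali * K.z = K.z * K.ali := by
  have h : K.ali * (K.al * K.z) * K.ali = K.ali * (K.z * K.al) * K.ali := by rw [K.alz]
  have h1 : K.ali * (K.al * K.z) * K.ali = K.z * K.ali := by
    rw [← mul_assoc, K.a2, one_mul]
  have h2 : K.ali * (K.z * K.al) * K.ali = K.ali * K.z := by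
    rw [mul_assoc, mul_assoc, K.a1, mul_one]
  rw [← h1, h, h2]

lemma alix : K.ali * K.x = K.x * K.ali := by
  have h : K.ali * (K.al * K.x) * K.ali = K.ali * (K.x * K.al) * K.ali := by rw [K.alx]
  have h1 : K.ali * (K.al * K.x) * K.ali = K.x * K.ali := by
    rw [← mul_assoc, K.a2, one_mul]
  have h2 : K.ali * (K.x * K.al) * K.ali = K.ali * K.x := by
    rw [mul_assoc, mul_assoc, K.a1, mul_one]
  rw [← h1, h, h2]

lemma beiz : K.bei * K.z = K.z * K.bei := by
  have h : K.bei * (K.be * K.z) * K.bei = K.bei * (K.z * K.be) * K.bei := by rw [K.bez]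
  have h1 : K.bei * (K.be * K.z) * K.bei = K.z * K.bei := by
    rw [← mul_assoc, K.b2, one_mul]
  have h2 : K.bei * (K.z * K.be) * K.bei = K.bei * K.z := by
    rw [mul_assoc, mul_assoc, K.b1, mul_one]
  rw [← h1, h, h2]

lemma beix : K.bei * K.x = K.x * K.bei := by
  have h : K.bei * (K.be * K.x) * K.bei = K.bei * (K.x * K.be) * K.bei := by rw [K.bex]
  have h1 : K.bei * (K.be * K.x) * K.bei = K.x * K.bei := by
    rw [← mul_assoc, K.b2, one_mul]
  have h2 : K.bei * (K.x * K.be) * K.bei = K.bei * K.x := by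
    rw [mul_assoc, mul_assoc, K.b1, mul_one]
  rw [← h1, h, h2]

lemma albei : K.al * K.bei = K.bei * K.al := by
  have h : K.bei * (K.be * K.al) * K.bei = K.bei * (K.al * K.be) * K.bei := by rw [K.albe]
  have h1 : K.bei * (K.be * K.al) * K.bei = K.al * K.bei := by
    rw [← mul_assoc, K.b2, one_mul]
  have h2 : K.bei * (K.al * K.be) * K.bei = K.bei * K.al := by
    rw [mul_assoc, mul_assoc, K.b1, mul_one]
  rw [← h1, h, h2]

/-! identities of the differentials -/

lemma I1 : (K.T - K.al) * K.z - K.al * K.z * (K.T - 1) = 0 := by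
  linear_combination (norm := noncomm_ring) K.Tz
lemma I2 : (K.T - K.be) * K.x - K.be * K.x * (K.T - 1) = 0 := by
  linear_combination (norm := noncomm_ring) K.Tx
lemma I4 : (K.T - K.al * K.be) * K.x - K.be * K.x * (K.T - K.al) = 0 := by
  linear_combination (norm := noncomm_ring) K.Tx - K.albe * K.x - K.be * K.alx
lemma I5 : (K.T - K.al * K.be) * K.z - K.al * K.z * (K.T - K.be) = 0 := by
  linear_combination (norm := noncomm_ring) K.Tz - K.al * K.bez
lemma I6 : K.be * K.x * (K.al * K.z) - K.al * K.z * (K.be * K.x) = 0 := by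
  linear_combination (norm := noncomm_ring) -K.be * K.alx * K.z + K.be * K.al * K.xz - K.albe * K.z * K.x + K.al * K.bez * K.x

lemma exF1 {a b c : R} (h : a * K.z + b * K.x + c * (K.T - 1) = 0) :
    ∃ e1 e2 e3, a = e1 * K.x + e2 * (K.T - K.al) ∧ b = -e1 * K.z + e3 * (K.T - K.be) ∧
      c = -(e2 * (K.al * K.z)) - e3 * (K.be * K.x) := by
  obtain ⟨c1, c2, hc⟩ := K.r3 c (-a) (-b) (by linear_combination (norm := noncomm_ring) h)
  have hc' : c = -((-c1 * K.ali) * (K.al * K.z)) - (-c2 * K.bei) * (K.be * K.x) := by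
    linear_combination (norm := noncomm_ring) hc - c1 * K.a2 * K.z - c2 * K.b2 * K.x
  set e2 := -c1 * K.ali
  set e3 := -c2 * K.bei
  obtain ⟨k, hk⟩ := K.r2 (b - e3 * (K.T - K.be)) (-(a - e2 * (K.T - K.al))) (by
    linear_combination (norm := noncomm_ring) h - hc' * (K.T - 1) - e2 * K.I1 - e3 * K.I2)
  have h1 : a - e2 * (K.T - K.al) + k * K.x = 0 := by
    apply K.r1
    linear_combination (norm := noncomm_ring) h - hc' * (K.T - 1) - e2 * K.I1 - e3 * K.I2 - hk * K.x + k * K.xz
  refine ⟨-k, e2, e3, ?_, ?_, hc'⟩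
  · linear_combination (norm := noncomm_ring) h1
  · linear_combination (norm := noncomm_ring) hk

lemma exF2 {e1 e2 e3 : R}
    (h2 : -e1 * K.z + e3 * (K.T - K.be) = 0)
    (h3 : -(e2 * (K.al * K.z)) - e3 * (K.be * K.x) = 0) :
    ∃ f, e1 = f * (K.T - K.al * K.be) ∧ e2 = -(f * (K.be * K.x)) ∧ e3 = f * (K.al * K.z) := by
  obtain ⟨k, hk⟩ := K.r2 (e3 * K.be) (-(e2 * K.al)) (by
    linear_combination (norm := noncomm_ring) -h3)
  have h4 : e3 = (k * K.bei * K.ali) * (K.al * K.z) := by
    linear_combination (norm := noncomm_ring) hk * K.bei - e3 * K.b1 - k * K.beiz - k * K.bei * K.a2 * K.z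
  set f := k * K.bei * K.ali
  have h5 : e2 + f * (K.be * K.x) = 0 := by
    apply K.alr
    apply K.r1
    linear_combination (norm := noncomm_ring) -h3 - h4 * (K.be * K.x) + f * K.I6
  have h6 : e1 - f * (K.T - K.al * K.be) = 0 := by
    apply K.r1
    linear_combination (norm := noncomm_ring) -h2 + h4 * (K.T - K.be) - f * K.I5
  exact ⟨f, by linear_combination (norm := noncomm_ring) h6, by linear_combination (norm := noncomm_ring) h5, h4⟩

lemma exF3 {f : R} (h : f * (K.al * K.z) = 0) : f = 0 := by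
  apply K.alr
  apply K.r1
  rw [mul_assoc]; exact h

/-! ### the dual complex -/

lemma coC1 {a b c : R} (h1 : K.x * a - K.z * b = 0) (h2 : (K.T - K.al) * a - K.al * K.z * c = 0) :
    ∃ m, a = K.z * m ∧ b = K.x * m ∧ c = (K.T - 1) * m := by
  obtain ⟨m, hm⟩ := K.l2 a b (by linear_combination (norm := noncomm_ring) h1)
  have h3 : b - K.x * m = 0 := by
    apply K.l1
    linear_combination (norm := noncomm_ring) -h1 + K.x * hm + K.xz * m
  have h4 : c - (K.T - 1) * m = 0 := by
    apply K.l1
    apply K.all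
    linear_combination (norm := noncomm_ring) -h2 + (K.T - K.al) * hm + K.I1 * m
  exact ⟨m, hm, by linear_combination (norm := noncomm_ring) h3, by linear_combination (norm := noncomm_ring) h4⟩

lemma coC2 {e1 e2 e3 : R}
    (h : (K.T - K.al * K.be) * e1 - K.be * K.x * e2 + K.al * K.z * e3 = 0) :
    ∃ a b c, e1 = K.x * a - K.z * b ∧ e2 = (K.T - K.al) * a - K.al * K.z * c ∧
      e3 = (K.T - K.be) * b - K.be * K.x * c := by
  obtain ⟨c', a, h1⟩ := K.l3 e1 (-(K.al * e3)) (K.be * e2) (by
    linear_combination (norm := noncomm_ring) h + K.bex * e2 - K.alz * e3)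
  set b := -c' with hb
  have h1' : e1 = K.x * a - K.z * b := by rw [hb]; linear_combination (norm := noncomm_ring) h1
  have key : K.x * (K.be * ((K.T - K.al) * a - e2)) = K.z * (K.al * ((K.T - K.be) * b - e3)) := by
    linear_combination (norm := noncomm_ring) h - (K.T - K.al * K.be) * h1' - K.I4 * a + K.I5 * b
      - K.bex * ((K.T - K.al) * a - e2) + K.alz * ((K.T - K.be) * b - e3)
  obtain ⟨g, hg⟩ := K.l2 _ _ key
  have h2 : K.al * ((K.T - K.be) * b - e3) - K.x * g = 0 := by
    apply K.l1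
    linear_combination (norm := noncomm_ring) -key + K.x * hg + K.xz * g
  refine ⟨a, b, K.bei * K.ali * g, h1', ?_, ?_⟩
  · have e : (K.T - K.al) * a - e2 = K.al * K.z * (K.bei * K.ali * g) := by
      have : K.bei * (K.be * ((K.T - K.al) * a - e2)) = K.bei * (K.z * g) := by rw [hg]
      linear_combination (norm := noncomm_ring) this - K.b2 * ((K.T - K.al) * a - e2)
        - K.bei * K.a1 * K.z * g - K.albei * K.ali * K.z * g + K.al * K.bei * K.aliz * g
        + K.al * K.beiz * K.ali * g
    linear_combination (norm := noncomm_ring) -e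
  · have e : (K.T - K.be) * b - e3 = K.be * K.x * (K.bei * K.ali * g) := by
      have : K.ali * (K.al * ((K.T - K.be) * b - e3)) = K.ali * (K.x * g) := by
        rw [sub_eq_zero.1 h2]
      linear_combination (norm := noncomm_ring) this - K.a2 * ((K.T - K.be) * b - e3)
        + K.alix * g - K.b1 * K.x * K.ali * g + K.be * K.beix * K.ali * g
    linear_combination (norm := noncomm_ring) -e

end Kos

end Pool.Agent.H312PD
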