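import Mathlib
import Pool.Agent.H312PD.Kos3

/-! A group with the Kos3 data is a `PD_3`-group. -/

namespace Pool.Agent.H312PD

open CategoryTheory Finsupp

/-- type `FP`, `H^i(G; ℤ[G]) = 0` for `i ≠ n`, and `H^n(G; ℤ[G]) ≅ ℤ` -/
def IsPD (n : ℕ) (G : Type) [Group G] : Prop :=
  (∃ (P : ℕ → Type) (_ : ∀ i, AddCommGroup (P i)) (_ : ∀ i, Module (MonoidAlgebra ℤ G) (P i))
    (d : ∀ i, P (i + 1) →ₗ[MonoidAlgebra ℤ G] P i) (ε : P 0 →+ ℤ) (m : ℕ),
    (∀ i, Module.Finite (MonoidAlgebra ℤ G) (P i)) ∧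
    (∀ i, Module.Projective (MonoidAlgebra ℤ G) (P i)) ∧
    (∀ i, m < i → Subsingleton (P i)) ∧
    Function.Surjective ε ∧
    (∀ (g : G) (x : P 0), ε (MonoidAlgebra.of ℤ G g • x) = ε x) ∧
    (∀ x : P 0, ε x = 0 ↔ x ∈ LinearMap.range (d 0)) ∧
    (∀ (i : ℕ) (x : P (i + 1)), d i x = 0 ↔ x ∈ LinearMap.range (d (i + 1)))) ∧
  (∀ i : ℕ, i ≠ n → Subsingleton (groupCohomology (Rep.leftRegular ℤ G) i)) ∧
  Nonempty (groupCohomology (Rep.leftRegular ℤ G) n ≃+ ℤ)

section fp
variable {G : Type} [Group G] {m : ℕ → ℕ} {A : ∀ n, Fin (m (n + 1)) → Fin (m n) → MonoidAlgebra ℤ G}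

theorem Good.fpart (H : Good m A) (N : ℕ) (hN : ∀ i, N < i → m i = 0) :
    ∃ (P : ℕ → Type) (_ : ∀ i, AddCommGroup (P i)) (_ : ∀ i, Module (MonoidAlgebra ℤ G) (P i))
    (d : ∀ i, P (i + 1) →ₗ[MonoidAlgebra ℤ G] P i) (ε : P 0 →+ ℤ) (m : ℕ),
    (∀ i, Module.Finite (MonoidAlgebra ℤ G) (P i)) ∧
    (∀ i, Module.Projective (MonoidAlgebra ℤ G) (P i)) ∧
    (∀ i, m < i → Subsingleton (P i)) ∧
    Function.Surjective ε ∧
    (∀ (g : G) (x : P 0), ε (MonoidAlgebra.of ℤ G g • x) = ε x) ∧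
    (∀ x : P 0, ε x = 0 ↔ x ∈ LinearMap.range (d 0)) ∧
    (∀ (i : ℕ) (x : P (i + 1)), d i x = 0 ↔ x ∈ LinearMap.range (d (i + 1))) := by
  let d : ∀ i : ℕ, (Fin (m (i + 1)) → MonoidAlgebra ℤ G) →ₗ[MonoidAlgebra ℤ G]
            (Fin (m i) → MonoidAlgebra ℤ G) := fun i =>
    { toFun := fun x j => ∑ l, x l * A i l j
      map_add' := fun x y => by
        funext j
        simp only [Pi.add_apply, add_mul, Finset.sum_add_distrib]
      map_smul' := fun r x => by
        funext j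
        simp only [Pi.smul_apply, smul_eq_mul, RingHom.id_apply, Finset.mul_sum, mul_assoc] }
  have hd : ∀ i x j, d i x j = ∑ l, x l * A i l j := fun _ _ _ => rfl
  let ε : (Fin (m 0) → MonoidAlgebra ℤ G) →+ ℤ :=
    { toFun := fun x => ∑ i, ag ℤ G (x i)
      map_zero' := by simp [ag_zero]
      map_add' := fun x y => by simp only [Pi.add_apply, ag_add, Finset.sum_add_distrib] }
  have hε : ∀ x, ε x = ∑ i, ag ℤ G (x i) := fun _ => rfl
  refine ⟨fun i => Fin (m i) → MonoidAlgebra ℤ G, inferInstance, inferInstance, d, ε, N,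
    fun i => inferInstance, fun i => inferInstance, ?_, ?_, ?_, ?_, ?_⟩
  · intro i hi
    have := hN i hi
    change Subsingleton (Fin (m i) → MonoidAlgebra ℤ G)
    rw [this]
    infer_instance
  · intro c
    obtain ⟨f, hf⟩ := H.hε c
    exact ⟨f, hf⟩
  · intro g x
    rw [hε, hε]
    refine Finset.sum_congr rfl fun i _ => ?_
    rw [Pi.smul_apply, smul_eq_mul, ag_mul, MonoidAlgebra.of_apply, ag_single, one_mul]
  · intro x
    constructor
    · intro hx
      obtain ⟨g, hg⟩ := H.hex0 (Finsupp.equivFunOnFinite.symm x) hx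
      exact ⟨g, by funext j; rw [hd]; exact (hg j).symm⟩
    · rintro ⟨y, rfl⟩
      rw [hε]
      simp_rw [hd]
      have : ∀ j, ag ℤ G (∑ l, y l * A 0 l j) = ∑ l, ag ℤ G (y l) * ag ℤ G (A 0 l j) := by
        intro j
        have h1 := map_sum (⟨⟨ag ℤ G, ag_zero⟩, ag_add⟩ : MonoidAlgebra ℤ G →+ ℤ)
          (fun l => y l * A 0 l j) Finset.univ
        refine h1.trans (Finset.sum_congr rfl fun l _ => ag_mul _ _)
      simp_rw [this]
      rw [Finset.sum_comm]
      refine Finset.sum_eq_zero fun l _ => ?_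
      rw [← Finset.mul_sum, H.h0, mul_zero]
  · intro i x
    constructor
    · intro hx
      obtain ⟨g, hg⟩ := H.hex i (Finsupp.equivFunOnFinite.symm x) (by
        intro l
        have := congrFun hx l
        rw [hd] at this
        exact this)
      exact ⟨g, by funext j; rw [hd]; exact (hg j).symm⟩
    · rintro ⟨y, rfl⟩
      funext l
      rw [hd]
      simp_rw [hd, Finset.sum_mul]
      rw [Finset.sum_comm]
      refine Finset.sum_eq_zero fun a _ => ?_
      simp_rw [mul_assoc]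
      rw [← Finset.mul_sum, H.hA, mul_zero]

noncomputable abbrev RRg (G : Type) [Group G] : Rep ℤ G := Rep.ofMulAction ℤ G G

lemma RRg_asAlgebraHom (r : MonoidAlgebra ℤ G) (x : RRg G) :
    (RRg G).ρ.asAlgebraHom r x = (r * x : MonoidAlgebra ℤ G) :=
  Representation.asAlgebraHom_ofMulAction_smul_eq_mul r x

/-- value of a morphism on a basis vector -/
noncomputable def valg {n : ℕ} (x : XX ℤ G m n ⟶ RRg G) (i : Fin (m n)) : MonoidAlgebra ℤ G :=
  x.hom (single i (MonoidAlgebra.single 1 1))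

lemma valg_comp {n : ℕ} (y : XX ℤ G m n ⟶ RRg G) (x : XX ℤ G m (n + 1) ⟶ RRg G) :
    dd m A n ≫ y = x ↔ ∀ i, ∑ j, A n i j * valg y j = valg x i := by
  rw [comp_eq_iff]
  refine forall_congr' fun i => ?_
  have : ∑ j, (RRg G).ρ.asAlgebraHom (A n i j) (y.hom (single j (MonoidAlgebra.single 1 1))) =
      ∑ j, A n i j * valg y j :=
    Finset.sum_congr rfl fun j _ => RRg_asAlgebraHom _ _
  rw [this]; rfl

lemma valg_zero_iff {n : ℕ} (x : XX ℤ G m n ⟶ RRg G) : x = 0 ↔ ∀ i, valg x i = 0 :=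
  hom_eq_zero_iff (RRg G) n x

lemma valg_zero {n : ℕ} (i : Fin (m n)) : valg (0 : XX ℤ G m n ⟶ RRg G) i = 0 :=
  (valg_zero_iff _).1 rfl i

/-- morphism with given values -/
noncomputable def morg (m : ℕ → ℕ) (n : ℕ) (F : Fin (m n) → MonoidAlgebra ℤ G) : XX ℤ G m n ⟶ RRg G :=
  Rep.freeLift ℤ G (RRg G) F

lemma valg_morg (n : ℕ) (F : Fin (m n) → MonoidAlgebra ℤ G) (i : Fin (m n)) :
    valg (morg m n F) i = F i :=
  lift_single (RRg G) n F i

/-- vector to finsupp -/
noncomputable def vecg {n : ℕ} (f : Fin n → MonoidAlgebra ℤ G) : Fin n →₀ MonoidAlgebra ℤ G :=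
  Finsupp.equivFunOnFinite.symm f

end fp

/-- group level data -/
structure KosG (G : Type) [Group G] extends Kos (MonoidAlgebra ℤ G) where
  ez : ag ℤ G z = 0
  ex : ag ℤ G x = 0
  eT : ag ℤ G (T - 1) = 0
  r4 : ∀ m, ag ℤ G m = 0 → ∃ a b c, m = a * z + b * x + c * (T - 1)
  aw : MonoidAlgebra ℤ G →+ ℤ
  aw1 : ∀ n : ℤ, aw (MonoidAlgebra.single 1 n) = n
  awz : ∀ m, aw (al * z * m) = 0
  awx : ∀ m, aw (be * x * m) = 0
  awT : ∀ m, aw ((T - al * be) * m) = 0
  l4 : ∀ m, aw m = 0 → ∃ a b c, m = z * a + x * b + (T - al * be) * c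

/-- ranks of the free modules -/
def mm : ℕ → ℕ
  | 0 => 1
  | 1 => 3
  | 2 => 3
  | 3 => 1
  | _ + 4 => 0

namespace KosG
variable {G : Type} [Group G] (K : KosG G)

/-- the matrices of the differentials -/
noncomputable def Mx : ∀ n, Fin (mm (n + 1)) → Fin (mm n) → MonoidAlgebra ℤ G
  | 0 => ![![K.z], ![K.x], ![K.T - 1]]
  | 1 => ![![K.x, -K.z, 0], ![K.T - K.al, 0, -(K.al * K.z)], ![0, K.T - K.be, -(K.be * K.x)]]
  | 2 => ![![K.T - K.al * K.be, -(K.be * K.x), K.al * K.z]]
  | _ + 3 => fun i => Fin.elim0 i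

lemma good : Good mm K.Mx where
  hA := by
    intro n
    match n with
    | 0 =>
      intro (i : Fin 3) (l : Fin 1)
      change ∑ j : Fin 3, K.Mx 1 i j * K.Mx 0 j l = 0
      rw [Fin.sum_univ_three]
      fin_cases l
      fin_cases i
      · change K.x * K.z + -K.z * K.x + 0 * (K.T - 1) = 0
        linear_combination (norm := noncomm_ring) K.xz
      · change (K.T - K.al) * K.z + 0 * K.x + -(K.al * K.z) * (K.T - 1) = 0
        linear_combination (norm := noncomm_ring) K.I1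
      · change 0 * K.z + (K.T - K.be) * K.x + -(K.be * K.x) * (K.T - 1) = 0
        linear_combination (norm := noncomm_ring) K.I2
    | 1 =>
      intro (i : Fin 1) (l : Fin 3)
      change ∑ j : Fin 3, K.Mx 2 i j * K.Mx 1 j l = 0
      rw [Fin.sum_univ_three]
      fin_cases i
      fin_cases l
      · change (K.T - K.al * K.be) * K.x + -(K.be * K.x) * (K.T - K.al) + (K.al * K.z) * 0 = 0
        linear_combination (norm := noncomm_ring) K.I4
      · change (K.T - K.al * K.be) * -K.z + -(K.be * K.x) * 0 + (K.al * K.z) * (K.T - K.be) = 0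
        linear_combination (norm := noncomm_ring) -K.I5
      · change (K.T - K.al * K.be) * 0 + -(K.be * K.x) * -(K.al * K.z) + (K.al * K.z) * -(K.be * K.x) = 0
        linear_combination (norm := noncomm_ring) K.I6
    | 2 => intro i; exact Fin.elim0 i
    | n + 3 => intro i; exact Fin.elim0 i
  h0 := by
    intro (i : Fin 3)
    change ∑ j : Fin 1, ag ℤ G (K.Mx 0 i j) = 0
    rw [Fin.sum_univ_one]
    fin_cases i
    · exact K.ez
    · exact K.ex
    · exact K.eT
  hε := by
    intro x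
    refine ⟨vecg (n := 1) ![MonoidAlgebra.single 1 x], ?_⟩
    change ∑ i : Fin 1, ag ℤ G (vecg (n := 1) ![MonoidAlgebra.single 1 x] i) = x
    rw [Fin.sum_univ_one]
    exact ag_single 1 x
  hex0 := by
    intro f hf
    change ∑ i : Fin 1, ag ℤ G (f i) = 0 at hf
    rw [Fin.sum_univ_one] at hf
    obtain ⟨a, b, c, h⟩ := K.r4 _ hf
    refine ⟨vecg (n := 3) ![a, b, c], ?_⟩
    intro (j : Fin 1)
    change f j = ∑ i : Fin 3, vecg (n := 3) ![a, b, c] i * K.Mx 0 i j
    rw [Fin.sum_univ_three]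
    fin_cases j
    exact h
  hex := by
    intro n
    match n with
    | 0 =>
      intro f hf
      have hf := hf (0 : Fin 1)
      change ∑ j : Fin 3, f j * K.Mx 0 j (0 : Fin 1) = 0 at hf
      rw [Fin.sum_univ_three] at hf
      obtain ⟨e1, e2, e3, h1, h2, h3⟩ := K.exF1 hf
      refine ⟨vecg (n := 3) ![e1, e2, e3], ?_⟩
      intro (j : Fin 3)
      change f j = ∑ i : Fin 3, vecg (n := 3) ![e1, e2, e3] i * K.Mx 1 i j
      rw [Fin.sum_univ_three]
      fin_cases j
      · change f (0 : Fin 3) = e1 * K.x + e2 * (K.T - K.al) + e3 * 0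
        linear_combination (norm := noncomm_ring) h1
      · change f (1 : Fin 3) = e1 * -K.z + e2 * 0 + e3 * (K.T - K.be)
        linear_combination (norm := noncomm_ring) h2
      · change f (2 : Fin 3) = e1 * 0 + e2 * -(K.al * K.z) + e3 * -(K.be * K.x)
        linear_combination (norm := noncomm_ring) h3
    | 1 =>
      intro f hf
      have hf1 := hf (0 : Fin 3)
      have hf2 := hf (1 : Fin 3)
      have hf3 := hf (2 : Fin 3)
      change ∑ j : Fin 3, f j * K.Mx 1 j (0 : Fin 3) = 0 at hf1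
      change ∑ j : Fin 3, f j * K.Mx 1 j (1 : Fin 3) = 0 at hf2
      change ∑ j : Fin 3, f j * K.Mx 1 j (2 : Fin 3) = 0 at hf3
      rw [Fin.sum_univ_three] at hf1 hf2 hf3
      change f (0 : Fin 3) * K.x + f (1 : Fin 3) * (K.T - K.al) + f (2 : Fin 3) * 0 = 0 at hf1
      change f (0 : Fin 3) * -K.z + f (1 : Fin 3) * 0 + f (2 : Fin 3) * (K.T - K.be) = 0 at hf2
      change f (0 : Fin 3) * 0 + f (1 : Fin 3) * -(K.al * K.z) + f (2 : Fin 3) * -(K.be * K.x) = 0 at hf3
      obtain ⟨g, h1, h2, h3⟩ := K.exF2 (e1 := f (0 : Fin 3)) (e2 := f (1 : Fin 3)) (e3 := f (2 : Fin 3))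
        (by linear_combination (norm := noncomm_ring) hf2)
        (by linear_combination (norm := noncomm_ring) hf3)
      refine ⟨vecg (n := 1) ![g], ?_⟩
      intro (j : Fin 3)
      change f j = ∑ i : Fin 1, vecg (n := 1) ![g] i * K.Mx 2 i j
      rw [Fin.sum_univ_one]
      fin_cases j
      · exact h1
      · change f (1 : Fin 3) = g * -(K.be * K.x)
        linear_combination (norm := noncomm_ring) h2
      · exact h3
    | 2 =>
      intro f hf
      have hf1 := hf (2 : Fin 3)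
      change ∑ j : Fin 1, f j * K.Mx 2 j (2 : Fin 3) = 0 at hf1
      rw [Fin.sum_univ_one] at hf1
      have h := K.exF3 (f := f (0 : Fin 1)) hf1
      refine ⟨0, ?_⟩
      intro (j : Fin 1)
      rw [Subsingleton.elim j 0]
      change f (0 : Fin 1) = ∑ i : Fin 0, _
      rw [Fin.sum_univ_zero]
      exact h
    | n + 3 =>
      intro f hf
      refine ⟨0, ?_⟩
      intro j
      exact Fin.elim0 j

include K in
theorem H0 : Subsingleton (groupCohomology (RRg G) 0) := by
  apply K.good.vanish_zero (RRg G)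
  intro x hx
  rw [valg_comp] at hx
  have h : ∑ j : Fin 1, K.Mx 0 (0 : Fin 3) j * valg (m := mm) (n := 0) x j = 0 :=
    (hx (0 : Fin 3)).trans (valg_zero (m := mm) (n := 1) (0 : Fin 3))
  rw [Fin.sum_univ_one] at h
  rw [valg_zero_iff]
  intro (i : Fin 1)
  rw [Subsingleton.elim i 0]
  exact K.l1 _ h

include K in
theorem H1 : Subsingleton (groupCohomology (RRg G) 1) := by
  apply K.good.vanish_succ (RRg G) 0
  intro x hx
  rw [valg_comp] at hx
  have h1 : ∑ j : Fin 3, K.Mx 1 (0 : Fin 3) j * valg (m := mm) (n := 1) x j = 0 :=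
    (hx (0 : Fin 3)).trans (valg_zero (m := mm) (n := 2) (0 : Fin 3))
  have h2 : ∑ j : Fin 3, K.Mx 1 (1 : Fin 3) j * valg (m := mm) (n := 1) x j = 0 :=
    (hx (1 : Fin 3)).trans (valg_zero (m := mm) (n := 2) (1 : Fin 3))
  rw [Fin.sum_univ_three] at h1 h2
  change K.x * valg (m := mm) (n := 1) x (0 : Fin 3) + -K.z * valg (m := mm) (n := 1) x (1 : Fin 3) +
    0 * valg (m := mm) (n := 1) x (2 : Fin 3) = 0 at h1
  change (K.T - K.al) * valg (m := mm) (n := 1) x (0 : Fin 3) + 0 * valg (m := mm) (n := 1) x (1 : Fin 3) +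
    -(K.al * K.z) * valg (m := mm) (n := 1) x (2 : Fin 3) = 0 at h2
  obtain ⟨m, e1, e2, e3⟩ := K.coC1 (a := valg (m := mm) (n := 1) x (0 : Fin 3))
    (b := valg (m := mm) (n := 1) x (1 : Fin 3)) (c := valg (m := mm) (n := 1) x (2 : Fin 3))
    (by linear_combination (norm := noncomm_ring) h1)
    (by linear_combination (norm := noncomm_ring) h2)
  refine ⟨morg mm 0 ![m], ?_⟩
  rw [valg_comp]
  intro (i : Fin 3)
  change ∑ j : Fin 1, K.Mx 0 i j * valg (morg mm 0 ![m]) j = valg (m := mm) (n := 1) x i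
  have hv : ∀ i : Fin 1, valg (m := mm) (n := 0) (morg mm 0 ![m]) i = (![m] : Fin 1 → _) i :=
    valg_morg (m := mm) 0 ![m]
  rw [Fin.sum_univ_one, hv]
  fin_cases i
  · exact e1.symm
  · exact e2.symm
  · exact e3.symm

include K in
theorem H2 : Subsingleton (groupCohomology (RRg G) 2) := by
  apply K.good.vanish_succ (RRg G) 1
  intro x hx
  rw [valg_comp] at hx
  have h1 : ∑ j : Fin 3, K.Mx 2 (0 : Fin 1) j * valg (m := mm) (n := 2) x j = 0 :=
    (hx (0 : Fin 1)).trans (valg_zero (m := mm) (n := 3) (0 : Fin 1))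
  rw [Fin.sum_univ_three] at h1
  change (K.T - K.al * K.be) * valg (m := mm) (n := 2) x (0 : Fin 3) +
    -(K.be * K.x) * valg (m := mm) (n := 2) x (1 : Fin 3) +
    (K.al * K.z) * valg (m := mm) (n := 2) x (2 : Fin 3) = 0 at h1
  obtain ⟨a, b, c, e1, e2, e3⟩ := K.coC2 (e1 := valg (m := mm) (n := 2) x (0 : Fin 3))
    (e2 := valg (m := mm) (n := 2) x (1 : Fin 3)) (e3 := valg (m := mm) (n := 2) x (2 : Fin 3))
    (by linear_combination (norm := noncomm_ring) h1)
  refine ⟨morg mm 1 ![a, b, c], ?_⟩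
  rw [valg_comp]
  intro (i : Fin 3)
  change ∑ j : Fin 3, K.Mx 1 i j * valg (morg mm 1 ![a, b, c]) j = valg (m := mm) (n := 2) x i
  have hv : ∀ i : Fin 3, valg (m := mm) (n := 1) (morg mm 1 ![a, b, c]) i = (![a, b, c] : Fin 3 → _) i :=
    valg_morg (m := mm) 1 ![a, b, c]
  rw [Fin.sum_univ_three, hv, hv, hv]
  fin_cases i
  · change K.x * a + -K.z * b + 0 * c = valg (m := mm) (n := 2) x (0 : Fin 3)
    linear_combination (norm := noncomm_ring) -e1
  · change (K.T - K.al) * a + 0 * b + -(K.al * K.z) * c = valg (m := mm) (n := 2) x (1 : Fin 3)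
    linear_combination (norm := noncomm_ring) -e2
  · change 0 * a + (K.T - K.be) * b + -(K.be * K.x) * c = valg (m := mm) (n := 2) x (2 : Fin 3)
    linear_combination (norm := noncomm_ring) -e3

/-- the evaluation of the top class -/
noncomputable def topHom : (XX ℤ G mm 3 ⟶ RRg G) →ₗ[ℤ] ℤ where
  toFun x := K.aw (valg x (0 : Fin 1))
  map_add' _ _ := map_add K.aw _ _
  map_smul' c x := by
    change K.aw (c • valg x (0 : Fin 1)) = c • K.aw (valg x (0 : Fin 1))
    exact map_zsmul K.aw c _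

include K in
theorem H3 : Nonempty (groupCohomology (RRg G) 3 ≃+ ℤ) := by
  obtain ⟨e⟩ := K.good.top (RRg G) 2 (by
      intro x
      rw [valg_zero_iff]
      intro i
      exact Fin.elim0 i) K.topHom
    (by
      intro c
      refine ⟨morg mm 3 (fun _ => MonoidAlgebra.single 1 c), ?_⟩
      exact (congrArg K.aw (valg_morg (m := mm) 3 (fun _ => MonoidAlgebra.single 1 c) (0 : Fin 1))).trans
        (K.aw1 c))
    (by
      intro x
      change K.aw (valg (m := mm) (n := 3) x (0 : Fin 1)) = 0 ↔ _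
      constructor
      · intro h
        obtain ⟨a, b, c, he⟩ := K.l4 _ h
        refine ⟨morg mm 2 ![c, -(K.bei * b), K.ali * a], ?_⟩
        rw [valg_comp]
        intro (i : Fin 1)
        rw [Subsingleton.elim i 0]
        change ∑ j : Fin 3, K.Mx 2 (0 : Fin 1) j * valg (morg mm 2 ![c, -(K.bei * b), K.ali * a]) j
          = valg (m := mm) (n := 3) x (0 : Fin 1)
        have hv : ∀ i : Fin 3, valg (m := mm) (n := 2) (morg mm 2 ![c, -(K.bei * b), K.ali * a]) i =
            (![c, -(K.bei * b), K.ali * a] : Fin 3 → _) i :=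
          valg_morg (m := mm) 2 ![c, -(K.bei * b), K.ali * a]
        rw [Fin.sum_univ_three, hv, hv, hv]
        change (K.T - K.al * K.be) * c + -(K.be * K.x) * -(K.bei * b) + K.al * K.z * (K.ali * a)
          = valg (m := mm) (n := 3) x (0 : Fin 1)
        linear_combination (norm := noncomm_ring) -he - K.be * K.beix * b + K.b1 * K.x * b
          - K.al * K.aliz * a + K.a1 * K.z * a
      · rintro ⟨y, hy⟩
        rw [valg_comp] at hy
        have h := hy (0 : Fin 1)
        change ∑ j : Fin 3, K.Mx 2 (0 : Fin 1) j * valg y j = valg (m := mm) (n := 3) x (0 : Fin 1) at h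
        rw [← h, Fin.sum_univ_three]
        change K.aw ((K.T - K.al * K.be) * _ + -(K.be * K.x) * _ + (K.al * K.z) * _) = 0
        rw [map_add, map_add, K.awT, K.awz, neg_mul, map_neg, K.awx]; ring)
  exact ⟨e.toAddEquiv⟩

include K in
theorem isPD : IsPD 3 G := by
  refine ⟨K.good.fpart 3 ?_, ?_, K.H3⟩
  · intro i hi
    obtain ⟨j, rfl⟩ : ∃ j, i = j + 4 := ⟨i - 4, by omega⟩
    rfl
  · intro i hi
    match i, hi with
    | 0, _ => exact K.H0
    | 1, _ => exact K.H1
    | 2, _ => exact K.H2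
    | n + 4, _ =>
      apply K.good.vanish_succ _ (n + 3)
      intro x _
      refine ⟨0, ?_⟩
      have h1 : x = 0 := by
        rw [hom_eq_zero_iff]
        intro j
        exact Fin.elim0 j
      rw [h1]
      simp

end KosG

end Pool.Agent.H312PD
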