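import Mathlib
import Pool.Agent.H312PD.PD3

/-! The groups `⟨z, x, t | zx = xz, tzt⁻¹ = z⁻¹, txt⁻¹ = x^{±1}⟩` are `PD_3`-groups. -/

namespace Pool.Agent.H312PD

open Finsupp

/-- `(-1)^c` if `u`, and `1` otherwise -/
def sf (u : Bool) (c : ℤ) : ℤ := if u then sg c else 1

lemma sf_add (u : Bool) (c d : ℤ) : sf u (c + d) = sf u c * sf u d := by
  cases u <;> simp [sf, sg_add]
@[simp] lemma sf_zero (u : Bool) : sf u 0 = 1 := by cases u <;> simp [sf]
lemma sf_mul_self (u : Bool) (c : ℤ) : sf u c * sf u c = 1 := by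
  cases u <;> simp [sf, sg_mul_self]
@[simp] lemma sf_neg (u : Bool) (c : ℤ) : sf u (-c) = sf u c := by cases u <;> simp [sf]

/-- elements `z^a x^b t^c` -/
@[ext] structure KK (u : Bool) where
  a : ℤ
  b : ℤ
  c : ℤ

namespace KK
variable {u : Bool}

instance : Mul (KK u) := ⟨fun g h => ⟨g.a + sg g.c * h.a, g.b + sf u g.c * h.b, g.c + h.c⟩⟩
instance : One (KK u) := ⟨⟨0, 0, 0⟩⟩
instance : Inv (KK u) := ⟨fun g => ⟨- sg g.c * g.a, - sf u g.c * g.b, -g.c⟩⟩

@[simp] lemma mul_a (g h : KK u) : (g * h).a = g.a + sg g.c * h.a := rfl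
@[simp] lemma mul_b (g h : KK u) : (g * h).b = g.b + sf u g.c * h.b := rfl
@[simp] lemma mul_c (g h : KK u) : (g * h).c = g.c + h.c := rfl
@[simp] lemma one_a : (1 : KK u).a = 0 := rfl
@[simp] lemma one_b : (1 : KK u).b = 0 := rfl
@[simp] lemma one_c : (1 : KK u).c = 0 := rfl
@[simp] lemma inv_a (g : KK u) : (g⁻¹).a = - sg g.c * g.a := rfl
@[simp] lemma inv_b (g : KK u) : (g⁻¹).b = - sf u g.c * g.b := rfl
@[simp] lemma inv_c (g : KK u) : (g⁻¹).c = - g.c := rfl

instance : Group (KK u) := Group.ofLeftAxioms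
  (by
    intro g h k
    ext
    · simp only [mul_a, mul_c, sg_add]; ring
    · simp only [mul_b, mul_c, sf_add]; ring
    · simp only [mul_c]; ring)
  (by
    intro g
    ext <;> simp)
  (by
    intro g
    ext
    · simp only [mul_a, inv_a, inv_c, sg_neg, one_a]; ring
    · simp only [mul_b, inv_b, inv_c, sf_neg, one_b]; ring
    · simp)

end KK

variable (u : Bool)

abbrev R3 : Type := MonoidAlgebra ℤ (KK u)

def zz : KK u := ⟨1, 0, 0⟩
def xx : KK u := ⟨0, 1, 0⟩
def tt : KK u := ⟨0, 0, 1⟩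

@[simp] lemma zz_a : (zz u).a = 1 := rfl
@[simp] lemma zz_b : (zz u).b = 0 := rfl
@[simp] lemma zz_c : (zz u).c = 0 := rfl
@[simp] lemma xx_a : (xx u).a = 0 := rfl
@[simp] lemma xx_b : (xx u).b = 1 := rfl
@[simp] lemma xx_c : (xx u).c = 0 := rfl
@[simp] lemma tt_a : (tt u).a = 0 := rfl
@[simp] lemma tt_b : (tt u).b = 0 := rfl
@[simp] lemma tt_c : (tt u).c = 1 := rfl

section el
variable {G : Type} [Group G]

/-- group elements in the group ring -/
noncomputable def el (g : G) : MonoidAlgebra ℤ G := MonoidAlgebra.single g 1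

lemma el_mul (g h : G) : el g * el h = el (g * h) := by
  simp [el, MonoidAlgebra.single_mul_single]

lemma el_one : el (1 : G) = 1 := rfl

lemma coeff_el_mul (g : G) (m : MonoidAlgebra ℤ G) :
    (el g * m).coeff = mapDomain (fun h => g * h) m.coeff := by
  induction m using MonoidAlgebra.induction_linear with
  | zero => simp
  | add x y hx hy => rw [mul_add, MonoidAlgebra.coeff_add, hx, hy, MonoidAlgebra.coeff_add, mapDomain_add]
  | single h r => simp [el, MonoidAlgebra.single_mul_single, mapDomain_single]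

lemma coeff_mul_el (g : G) (m : MonoidAlgebra ℤ G) :
    (m * el g).coeff = mapDomain (fun h => h * g) m.coeff := by
  induction m using MonoidAlgebra.induction_linear with
  | zero => simp
  | add x y hx hy => rw [add_mul, MonoidAlgebra.coeff_add, hx, hy, MonoidAlgebra.coeff_add, mapDomain_add]
  | single h r => simp [el, MonoidAlgebra.single_mul_single, mapDomain_single]

/-- left multiplication by `g - 1` -/
noncomputable def dl (g : G) : MonoidAlgebra ℤ G →+ MonoidAlgebra ℤ G := AddMonoidHom.mulLeft (el g - 1)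
/-- right multiplication by `g - 1` -/
noncomputable def dr (g : G) : MonoidAlgebra ℤ G →+ MonoidAlgebra ℤ G := AddMonoidHom.mulRight (el g - 1)

lemma dl_apply (g : G) (m : MonoidAlgebra ℤ G) : dl g m = (el g - 1) * m := rfl
lemma dr_apply (g : G) (m : MonoidAlgebra ℤ G) : dr g m = m * (el g - 1) := rfl

lemma coeff_dl (g : G) (m : MonoidAlgebra ℤ G) : (dl g m).coeff = sh (fun h => g * h) m.coeff := by
  rw [dl_apply, sub_mul, one_mul, sh_apply, ← coeff_el_mul]; rfl

lemma coeff_dr (g : G) (m : MonoidAlgebra ℤ G) : (dr g m).coeff = sh (fun h => h * g) m.coeff := by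
  rw [dr_apply, mul_sub, mul_one, sh_apply, ← coeff_mul_el]; rfl

omit [Group G] in
lemma el_ext {m n : MonoidAlgebra ℤ G} (h : m.coeff = n.coeff) : m = n := MonoidAlgebra.coeff_inj.1 h

lemma ag_el (g : G) : ag ℤ G (el g) = 1 := ag_single g 1
lemma ag_one : ag ℤ G (1 : MonoidAlgebra ℤ G) = 1 := ag_single 1 1
lemma ag_neg (r : MonoidAlgebra ℤ G) : ag ℤ G (-r) = - ag ℤ G r := by
  have h := ag_add r (-r)
  rw [add_neg_cancel, ag_zero] at h
  linarith
lemma ag_sub (r s : MonoidAlgebra ℤ G) : ag ℤ G (r - s) = ag ℤ G r - ag ℤ G s := by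
  rw [sub_eq_add_neg, ag_add, ag_neg]; ring

/-- the augmentation as an additive map -/
noncomputable def agh (G : Type) [Group G] : MonoidAlgebra ℤ G →+ ℤ := ⟨⟨ag ℤ G, ag_zero⟩, ag_add⟩
lemma agh_apply (r : MonoidAlgebra ℤ G) : agh G r = ag ℤ G r := rfl

end el

noncomputable def q1 : R3 u →+ (ℤ × ℤ →₀ ℤ) :=
  (mapDomain.addMonoidHom (fun g : KK u => (g.b, g.c))).comp MonoidAlgebra.coeffAddEquiv.toAddMonoidHom

noncomputable def q2 : (ℤ × ℤ →₀ ℤ) →+ (ℤ →₀ ℤ) := mapDomain.addMonoidHom (fun p : ℤ × ℤ => p.2)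

noncomputable def q3 : (ℤ →₀ ℤ) →+ ℤ :=
  (applyAddHom ()).comp (mapDomain.addMonoidHom (fun _ : ℤ => ()))

lemma q1_apply (m : R3 u) : q1 u m = mapDomain (fun g : KK u => (g.b, g.c)) m.coeff := rfl
lemma q2_apply (m : ℤ × ℤ →₀ ℤ) : q2 m = mapDomain (fun p : ℤ × ℤ => p.2) m := rfl
lemma q3_apply (m : ℤ →₀ ℤ) : q3 m = mapDomain (fun _ : ℤ => ()) m () := rfl

lemma q3_eq_zero {m : ℤ →₀ ℤ} (h : q3 m = 0) : mapDomain (fun _ : ℤ => ()) m = 0 := by
  ext; exact h

lemma q1_surj : Function.Surjective (q1 u) := by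
  intro m
  refine ⟨MonoidAlgebra.ofCoeff (mapDomain (fun p : ℤ × ℤ => (⟨0, p.1, p.2⟩ : KK u)) m), ?_⟩
  rw [q1_apply, MonoidAlgebra.coeff_ofCoeff, ← mapDomain_comp]
  exact mapDomain_id

lemma q2_surj : Function.Surjective q2 := by
  intro m
  refine ⟨mapDomain (fun c : ℤ => ((0 : ℤ), c)) m, ?_⟩
  rw [q2_apply, ← mapDomain_comp]
  exact mapDomain_id

lemma ex_three (m : ℤ →₀ ℤ) (h : q3 m = 0) : ∃ k, sh (fun c : ℤ => c + 1) k = m := by
  exact sh_ker' (Equiv.addRight (1 : ℤ)) (fun _ => ()) (fun _ => 0) (fun c => c) (fun s => rfl)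
    (fun s => rfl) (fun _ => rfl) (fun _ => rfl) (fun s u _ h => h) m (q3_eq_zero h)

/-- the tower for left multiplication -/
noncomputable def TL : Tower (R3 u) (ℤ × ℤ →₀ ℤ) (ℤ →₀ ℤ) where
  D1 := dl (zz u)
  D2 := dl (xx u)
  D3 := dl (tt u)
  E2 := sh (fun p => (p.1 + 1, p.2))
  E3 := sh (fun c => c + 1)
  p1 := q1 u
  p2 := q2
  p3 := q3
  inj1 := by
    intro m n h
    apply el_ext
    apply sh_injective (fun h => zz u * h) (mul_right_injective (zz u)) (fun g => g.a)
      (by intro s; simp; ring)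
    rw [← coeff_dl, ← coeff_dl, h]
  inj2 := sh_injective _ (by rintro ⟨a, b⟩ ⟨c, d⟩ h; simpa using h) (fun p => p.1) (fun _ => rfl)
  inj3 := sh_injective _ (add_left_injective 1) (fun c => c) (fun _ => rfl)
  z1 m := by rw [q1_apply, coeff_dl]; exact map_sh _ _ (by intro s; simp) _
  z2 m := by rw [q2_apply]; exact map_sh _ _ (by intro s; rfl) _
  ex1 m hm := by
    obtain ⟨k, hk⟩ := sh_ker' (Equiv.mulLeft (zz u)) (fun g : KK u => (g.b, g.c)) (fun p => ⟨0, p.1, p.2⟩)
      (fun g => g.a) (by intro s; simp; ring) (by intro s; simp) (fun _ => rfl) (fun _ => rfl)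
      (by
        intro s u h1 h2
        simp only [Prod.mk.injEq] at h1
        exact KK.ext h2 h1.1 h1.2) m.coeff hm
    exact ⟨MonoidAlgebra.ofCoeff k, el_ext (by rw [coeff_dl]; exact hk)⟩
  ex2 m hm := by
    exact sh_ker' (S := ℤ × ℤ) ((Equiv.addRight (1 : ℤ)).prodCongr (Equiv.refl ℤ)) (fun p => p.2) (fun c => (0, c))
      (fun p => p.1) (fun s => rfl) (fun s => rfl) (fun _ => rfl) (fun _ => rfl)
      (fun s u h1 h2 => Prod.ext h2 h1) m hm
  ex3 := ex_three
  s1 := q1_surj u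
  s2 := q2_surj
  c2 m := by rw [q1_apply, q1_apply, coeff_dl]; exact map_sh_comm _ _ _ (by intro s; simp [add_comm]) _
  c3 m := by
    rw [q1_apply, q1_apply, q2_apply, q2_apply, coeff_dl, ← mapDomain_comp, ← mapDomain_comp]
    exact map_sh_comm _ _ _ (by intro s; simp [add_comm]) _

/-- the tower for right multiplication -/
noncomputable def TR : Tower (R3 u) (ℤ × ℤ →₀ ℤ) (ℤ →₀ ℤ) where
  D1 := dr (zz u)
  D2 := dr (xx u)
  D3 := dr (tt u)
  E2 := sh (fun p => (p.1 + sf u p.2, p.2))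
  E3 := sh (fun c => c + 1)
  p1 := q1 u
  p2 := q2
  p3 := q3
  inj1 := by
    intro m n h
    apply el_ext
    apply sh_injective (fun h => h * zz u) (mul_left_injective (zz u)) (fun g => sg g.c * g.a)
      (by intro s; have := sg_mul_self s.c; simp; linear_combination this)
    rw [← coeff_dr, ← coeff_dr, h]
  inj2 := sh_injective _ (by
      rintro ⟨a, b⟩ ⟨c, d⟩ h
      simp only [Prod.mk.injEq] at h
      obtain ⟨h1, rfl⟩ := h
      simpa using h1) (fun p => sf u p.2 * p.1)
    (by intro s; have := sf_mul_self u s.2; linear_combination this)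
  inj3 := sh_injective _ (add_left_injective 1) (fun c => c) (fun _ => rfl)
  z1 m := by rw [q1_apply, coeff_dr]; exact map_sh _ _ (by intro s; simp) _
  z2 m := by rw [q2_apply]; exact map_sh _ _ (by intro s; rfl) _
  ex1 m hm := by
    obtain ⟨k, hk⟩ := sh_ker' (Equiv.mulRight (zz u)) (fun g : KK u => (g.b, g.c)) (fun p => ⟨0, p.1, p.2⟩)
      (fun g => sg g.c * g.a) (by intro s; have := sg_mul_self s.c; simp; linear_combination this)
      (by intro s; simp) (fun _ => by simp) (fun _ => rfl)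
      (by
        intro s v h1 h2
        simp only [Prod.mk.injEq] at h1
        have h3 : s.a = v.a := by
          have e1 := sg_mul_self s.c
          rw [← h1.2] at h2
          linear_combination sg s.c * h2 - (s.a - v.a) * e1
        exact KK.ext h3 h1.1 h1.2) m.coeff hm
    exact ⟨MonoidAlgebra.ofCoeff k, el_ext (by rw [coeff_dr]; exact hk)⟩
  ex2 m hm := by
    let σ : Equiv.Perm (ℤ × ℤ) :=
      { toFun := fun p => (p.1 + sf u p.2, p.2)
        invFun := fun p => (p.1 - sf u p.2, p.2)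
        left_inv := fun p => by simp
        right_inv := fun p => by simp }
    exact sh_ker' σ (fun p => p.2) (fun c => (0, c))
      (fun p => sf u p.2 * p.1) (by intro s; have := sf_mul_self u s.2; simp only [σ, Equiv.coe_fn_mk]; linear_combination this)
      (fun s => rfl) (fun _ => by simp) (fun _ => rfl)
      (by
        intro s v h1 h2
        have h3 : s.1 = v.1 := by
          have e1 := sf_mul_self u s.2
          rw [← h1] at h2
          linear_combination sf u s.2 * h2 - (s.1 - v.1) * e1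
        exact Prod.ext h3 h1) m hm
  ex3 := ex_three
  s1 := q1_surj u
  s2 := q2_surj
  c2 m := by rw [q1_apply, q1_apply, coeff_dr]; exact map_sh_comm _ _ _ (by intro s; simp) _
  c3 m := by
    rw [q1_apply, q1_apply, q2_apply, q2_apply, coeff_dr, ← mapDomain_comp, ← mapDomain_comp]
    exact map_sh_comm _ _ _ (by intro s; simp) _

noncomputable def Z : R3 u := el (zz u)
noncomputable def Zi : R3 u := el (zz u)⁻¹
noncomputable def X : R3 u := el (xx u)
noncomputable def Xi : R3 u := el (xx u)⁻¹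
noncomputable def T : R3 u := el (tt u)

lemma Z_Zi : Z u * Zi u = 1 := by rw [Z, Zi, el_mul, mul_inv_cancel, el_one]
lemma Zi_Z : Zi u * Z u = 1 := by rw [Z, Zi, el_mul, inv_mul_cancel, el_one]
lemma X_Xi : X u * Xi u = 1 := by rw [X, Xi, el_mul, mul_inv_cancel, el_one]
lemma Xi_X : Xi u * X u = 1 := by rw [X, Xi, el_mul, inv_mul_cancel, el_one]
lemma X_Z : X u * Z u = Z u * X u := by
  rw [Z, X, el_mul, el_mul]; exact congrArg el (by ext <;> simp)
lemma T_Z : T u * Z u = Zi u * T u := by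
  rw [Z, Zi, T, el_mul, el_mul]; exact congrArg el (by ext <;> simp)
lemma T_X1 : T true * X true = Xi true * T true := by
  rw [X, Xi, T, el_mul, el_mul]; exact congrArg el (by ext <;> simp [sf])
lemma T_X0 : T false * X false = X false * T false := by
  rw [X, T, el_mul, el_mul]; exact congrArg el (by ext <;> simp [sf])
lemma X_Zi : X u * Zi u = Zi u * X u := by
  rw [Zi, X, el_mul, el_mul]; exact congrArg el (by ext <;> simp)
lemma Z_Xi : Z u * Xi u = Xi u * Z u := by
  rw [Z, Xi, el_mul, el_mul]; exact congrArg el (by ext <;> simp)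
lemma Zi_Xi : Zi u * Xi u = Xi u * Zi u := by
  rw [Zi, Xi, el_mul, el_mul]; exact congrArg el (by ext <;> simp)

/-- the augmentation -/
noncomputable def aug : R3 u →+ ℤ := q3.comp (q2.comp (q1 u))

lemma aug_single (g : KK u) (r : ℤ) : aug u (MonoidAlgebra.single g r) = r := by
  simp [aug, q1_apply, q2_apply, q3_apply, mapDomain_single]

lemma ag_eq (r : R3 u) : ag ℤ (KK u) r = aug u r := by
  induction r using MonoidAlgebra.induction_linear with
  | zero => rw [ag_zero, map_zero]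
  | add x y hx hy => rw [ag_add, hx, hy, map_add]
  | single g r => rw [ag_single, aug_single]

lemma rr1 {m : R3 u} (h : m * (Z u - 1) = 0) : m = 0 := (TR u).r1 h
lemma rr2 {m n : R3 u} (h : m * (X u - 1) = n * (Z u - 1)) : ∃ k, m = k * (Z u - 1) := by
  obtain ⟨k, hk⟩ := (TR u).r2 (m := m) (n := n) h
  exact ⟨k, hk.symm⟩
lemma rr3 {m a b : R3 u} (h : m * (T u - 1) = a * (Z u - 1) + b * (X u - 1)) :
    ∃ c d, m = c * (Z u - 1) + d * (X u - 1) := (TR u).r3 (m := m) (a := a) (b := b) h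
lemma rr4 {m : R3 u} (h : ag ℤ (KK u) m = 0) :
    ∃ a b c, m = a * (Z u - 1) + b * (X u - 1) + c * (T u - 1) :=
  (TR u).r4 (m := m) (by rw [ag_eq] at h; exact h)

lemma ll1 {m : R3 u} (h : (Z u - 1) * m = 0) : m = 0 := (TL u).r1 h
lemma ll2 {m n : R3 u} (h : (X u - 1) * m = (Z u - 1) * n) : ∃ k, m = (Z u - 1) * k := by
  obtain ⟨k, hk⟩ := (TL u).r2 (m := m) (n := n) h
  exact ⟨k, hk.symm⟩
lemma ll3 {m a b : R3 u} (h : (T u - 1) * m = (Z u - 1) * a + (X u - 1) * b) :
    ∃ c d, m = (Z u - 1) * c + (X u - 1) * d := (TL u).r3 (m := m) (a := a) (b := b) h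
lemma ll4 {m : R3 u} (h : ag ℤ (KK u) m = 0) :
    ∃ a b c, m = (Z u - 1) * a + (X u - 1) * b + (T u - 1) * c :=
  (TL u).r4 (m := m) (by rw [ag_eq] at h; exact h)

/-! ### the sign twist -/

/-- `g ↦ (-1)^c g` -/
noncomputable def chi : KK u →* R3 u where
  toFun g := MonoidAlgebra.single g (sg g.c)
  map_one' := by simp [MonoidAlgebra.one_def]
  map_mul' g h := by
    rw [MonoidAlgebra.single_mul_single, KK.mul_c, sg_add]

noncomputable def tw : R3 u →ₐ[ℤ] R3 u := MonoidAlgebra.lift ℤ (R3 u) (KK u) (chi u)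

lemma tw_single (g : KK u) (r : ℤ) : tw u (MonoidAlgebra.single g r) = MonoidAlgebra.single g (r * sg g.c) := by
  rw [tw, MonoidAlgebra.lift_single]
  change r • MonoidAlgebra.single g (sg g.c) = _
  rw [MonoidAlgebra.smul_single, smul_eq_mul]

lemma tw_tw (m : R3 u) : tw u (tw u m) = m := by
  induction m using MonoidAlgebra.induction_linear with
  | zero => simp
  | add x y hx hy => rw [map_add, map_add, hx, hy]
  | single g r => rw [tw_single, tw_single, mul_assoc, sg_mul_self, mul_one]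

lemma tw_Z : tw u (Z u) = Z u := by rw [Z, el, tw_single]; simp
lemma tw_Zi : tw u (Zi u) = Zi u := by rw [Zi, el, tw_single]; simp
lemma tw_X : tw u (X u) = X u := by rw [X, el, tw_single]; simp
lemma tw_T : tw u (T u) = - T u := by
  rw [T, el, tw_single, tt_c, sg_one, mul_neg, mul_one, MonoidAlgebra.single_neg]

lemma ll3' {m a b : R3 u} (h : (T u + 1) * m = (Z u - 1) * a + (X u - 1) * b) :
    ∃ c d, m = (Z u - 1) * c + (X u - 1) * d := by
  have h1 := congrArg (tw u) h
  rw [map_mul, map_add, map_add, map_mul, map_mul, map_sub, map_sub, tw_T, tw_Z, tw_X, map_one] at h1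
  obtain ⟨c, d, hcd⟩ := ll3 u (m := tw u m) (a := -tw u a) (b := -tw u b) (by
    linear_combination (norm := noncomm_ring) -h1)
  refine ⟨tw u c, tw u d, ?_⟩
  have h2 := congrArg (tw u) hcd
  rw [tw_tw, map_add, map_mul, map_mul, map_sub, map_sub, tw_Z, tw_X, map_one] at h2
  exact h2

lemma ll4' {m : R3 u} (h : ag ℤ (KK u) (tw u m) = 0) :
    ∃ a b c, m = (Z u - 1) * a + (X u - 1) * b + (T u + 1) * c := by
  obtain ⟨a, b, c, habc⟩ := ll4 u h
  refine ⟨tw u a, tw u b, -tw u c, ?_⟩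
  have h2 := congrArg (tw u) habc
  rw [tw_tw, map_add, map_add, map_mul, map_mul, map_mul, map_sub, map_sub, map_sub, tw_Z, tw_X, tw_T,
    map_one] at h2
  linear_combination (norm := noncomm_ring) h2

end Pool.Agent.H312PD
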