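import Mathlib
import Pool.Agent.H312PD.PD3

/-! A group with the two-dimensional data is a `PD_2`-group. -/

namespace Pool.Agent.H312PD

open CategoryTheory Finsupp

/-- group level data for `ℤ ⋊ ℤ`; `z` stands for `Z - 1` -/
structure KosT (G : Type) [Group G] where
  z : MonoidAlgebra ℤ G
  T : MonoidAlgebra ℤ G
  al : MonoidAlgebra ℤ G
  ali : MonoidAlgebra ℤ G
  alz : al * z = z * al
  a1 : al * ali = 1
  a2 : ali * al = 1
  Tz : T * z = al * z * T
  r1 : ∀ m, m * z = 0 → m = 0
  r3 : ∀ m a, m * (T - 1) = a * z → ∃ c, m = c * z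
  l1 : ∀ m, z * m = 0 → m = 0
  l3 : ∀ m a, (T - al) * m = z * a → ∃ c, m = z * c
  ez : ag ℤ G z = 0
  eT : ag ℤ G (T - 1) = 0
  r4 : ∀ m, ag ℤ G m = 0 → ∃ a c, m = a * z + c * (T - 1)
  aw : MonoidAlgebra ℤ G →+ ℤ
  aw1 : ∀ n : ℤ, aw (MonoidAlgebra.single 1 n) = n
  awz : ∀ m, aw (al * z * m) = 0
  awT : ∀ m, aw ((T - al) * m) = 0
  l4 : ∀ m, aw m = 0 → ∃ a c, m = z * a + (T - al) * c

namespace KosT
variable {G : Type} [Group G] (K : KosT G)

lemma alr {m : MonoidAlgebra ℤ G} (h : m * K.al = 0) : m = 0 := by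
  have h1 : m * K.al * K.ali = 0 := by rw [h, zero_mul]
  rwa [mul_assoc, K.a1, mul_one] at h1

lemma all {m : MonoidAlgebra ℤ G} (h : K.al * m = 0) : m = 0 := by
  have h1 : K.ali * (K.al * m) = 0 := by rw [h, mul_zero]
  rwa [← mul_assoc, K.a2, one_mul] at h1

lemma aliz : K.ali * K.z = K.z * K.ali := by
  have h : K.ali * (K.al * K.z) * K.ali = K.ali * (K.z * K.al) * K.ali := by rw [K.alz]
  have h1 : K.ali * (K.al * K.z) * K.ali = K.z * K.ali := by
    rw [← mul_assoc, K.a2, one_mul]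
  have h2 : K.ali * (K.z * K.al) * K.ali = K.ali * K.z := by
    rw [mul_assoc, mul_assoc, K.a1, mul_one]
  rw [← h1, h, h2]

lemma I1 : (K.T - K.al) * K.z - K.al * K.z * (K.T - 1) = 0 := by
  linear_combination (norm := noncomm_ring) K.Tz

lemma exF1 {a c : MonoidAlgebra ℤ G} (h : a * K.z + c * (K.T - 1) = 0) :
    ∃ e, a = e * (K.T - K.al) ∧ c = -(e * (K.al * K.z)) := by
  obtain ⟨c1, hc⟩ := K.r3 c (-a) (by linear_combination (norm := noncomm_ring) h)
  have hc' : c = -((-c1 * K.ali) * (K.al * K.z)) := by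
    linear_combination (norm := noncomm_ring) hc - c1 * K.a2 * K.z
  set e := -c1 * K.ali
  have h1 : a - e * (K.T - K.al) = 0 := by
    apply K.r1
    linear_combination (norm := noncomm_ring) h - hc' * (K.T - 1) - e * K.I1
  exact ⟨e, by linear_combination (norm := noncomm_ring) h1, hc'⟩

lemma exF2 {f : MonoidAlgebra ℤ G} (h : f * -(K.al * K.z) = 0) : f = 0 := by
  apply K.alr
  apply K.r1
  rw [mul_assoc]
  linear_combination (norm := noncomm_ring) -h

lemma coC1 {a c : MonoidAlgebra ℤ G} (h2 : (K.T - K.al) * a - K.al * K.z * c = 0) :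
    ∃ m, a = K.z * m ∧ c = (K.T - 1) * m := by
  obtain ⟨m, hm⟩ := K.l3 a (K.al * c) (by linear_combination (norm := noncomm_ring) h2 + K.alz * c)
  have h4 : c - (K.T - 1) * m = 0 := by
    apply K.l1
    apply K.all
    linear_combination (norm := noncomm_ring) -h2 + (K.T - K.al) * hm + K.I1 * m
  exact ⟨m, hm, by linear_combination (norm := noncomm_ring) h4⟩

/-- ranks of the free modules -/
def m2 : ℕ → ℕ
  | 0 => 1
  | 1 => 2
  | 2 => 1
  | _ + 3 => 0

/-- the matrices of the differentials -/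
noncomputable def Mx : ∀ n, Fin (m2 (n + 1)) → Fin (m2 n) → MonoidAlgebra ℤ G
  | 0 => ![![K.z], ![K.T - 1]]
  | 1 => ![![K.T - K.al, -(K.al * K.z)]]
  | _ + 2 => fun i => Fin.elim0 i

lemma good : Good m2 K.Mx where
  hA := by
    intro n
    match n with
    | 0 =>
      intro (i : Fin 1) (l : Fin 1)
      change ∑ j : Fin 2, K.Mx 1 i j * K.Mx 0 j l = 0
      rw [Fin.sum_univ_two]
      fin_cases l
      fin_cases i
      change (K.T - K.al) * K.z + -(K.al * K.z) * (K.T - 1) = 0
      linear_combination (norm := noncomm_ring) K.I1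
    | 1 => intro i; exact Fin.elim0 i
    | n + 2 => intro i; exact Fin.elim0 i
  h0 := by
    intro (i : Fin 2)
    change ∑ j : Fin 1, ag ℤ G (K.Mx 0 i j) = 0
    rw [Fin.sum_univ_one]
    fin_cases i
    · exact K.ez
    · exact K.eT
  hε := by
    intro x
    refine ⟨vecg (n := 1) ![MonoidAlgebra.single 1 x], ?_⟩
    change ∑ i : Fin 1, ag ℤ G (vecg (n := 1) ![MonoidAlgebra.single 1 x] i) = x
    rw [Fin.sum_univ_one]
    exact ag_single 1 x
  hex0 := by
    intro f hf
    change ∑ i : Fin 1, ag ℤ G (f i) = 0 at hf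
    rw [Fin.sum_univ_one] at hf
    obtain ⟨a, c, h⟩ := K.r4 _ hf
    refine ⟨vecg (n := 2) ![a, c], ?_⟩
    intro (j : Fin 1)
    change f j = ∑ i : Fin 2, vecg (n := 2) ![a, c] i * K.Mx 0 i j
    rw [Fin.sum_univ_two]
    fin_cases j
    exact h
  hex := by
    intro n
    match n with
    | 0 =>
      intro f hf
      have hf := hf (0 : Fin 1)
      change ∑ j : Fin 2, f j * K.Mx 0 j (0 : Fin 1) = 0 at hf
      rw [Fin.sum_univ_two] at hf
      obtain ⟨e, h1, h2⟩ := K.exF1 hf
      refine ⟨vecg (n := 1) ![e], ?_⟩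
      intro (j : Fin 2)
      change f j = ∑ i : Fin 1, vecg (n := 1) ![e] i * K.Mx 1 i j
      rw [Fin.sum_univ_one]
      fin_cases j
      · exact h1
      · change f (1 : Fin 2) = e * -(K.al * K.z)
        linear_combination (norm := noncomm_ring) h2
    | 1 =>
      intro f hf
      have hf1 := hf (1 : Fin 2)
      change ∑ j : Fin 1, f j * K.Mx 1 j (1 : Fin 2) = 0 at hf1
      rw [Fin.sum_univ_one] at hf1
      have h := K.exF2 (f := f (0 : Fin 1)) hf1
      refine ⟨0, ?_⟩
      intro (j : Fin 1)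
      rw [Subsingleton.elim j 0]
      change f (0 : Fin 1) = ∑ i : Fin 0, _
      rw [Fin.sum_univ_zero]
      exact h
    | n + 2 =>
      intro f hf
      refine ⟨0, ?_⟩
      intro j
      exact Fin.elim0 j

include K in
theorem H0 : Subsingleton (groupCohomology (RRg G) 0) := by
  apply K.good.vanish_zero (RRg G)
  intro x hx
  rw [valg_comp] at hx
  have h : ∑ j : Fin 1, K.Mx 0 (0 : Fin 2) j * valg (m := m2) (n := 0) x j = 0 :=
    (hx (0 : Fin 2)).trans (valg_zero (m := m2) (n := 1) (0 : Fin 2))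
  rw [Fin.sum_univ_one] at h
  rw [valg_zero_iff]
  intro (i : Fin 1)
  rw [Subsingleton.elim i 0]
  exact K.l1 _ h

include K in
theorem H1 : Subsingleton (groupCohomology (RRg G) 1) := by
  apply K.good.vanish_succ (RRg G) 0
  intro x hx
  rw [valg_comp] at hx
  have h1 : ∑ j : Fin 2, K.Mx 1 (0 : Fin 1) j * valg (m := m2) (n := 1) x j = 0 :=
    (hx (0 : Fin 1)).trans (valg_zero (m := m2) (n := 2) (0 : Fin 1))
  rw [Fin.sum_univ_two] at h1
  change (K.T - K.al) * valg (m := m2) (n := 1) x (0 : Fin 2) +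
    -(K.al * K.z) * valg (m := m2) (n := 1) x (1 : Fin 2) = 0 at h1
  obtain ⟨m, e1, e3⟩ := K.coC1 (a := valg (m := m2) (n := 1) x (0 : Fin 2))
    (c := valg (m := m2) (n := 1) x (1 : Fin 2))
    (by linear_combination (norm := noncomm_ring) h1)
  refine ⟨morg m2 0 ![m], ?_⟩
  rw [valg_comp]
  intro (i : Fin 2)
  change ∑ j : Fin 1, K.Mx 0 i j * valg (morg m2 0 ![m]) j = valg (m := m2) (n := 1) x i
  have hv : ∀ i : Fin 1, valg (m := m2) (n := 0) (morg m2 0 ![m]) i = (![m] : Fin 1 → _) i :=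
    valg_morg (m := m2) 0 ![m]
  rw [Fin.sum_univ_one, hv]
  fin_cases i
  · exact e1.symm
  · exact e3.symm

/-- the evaluation of the top class -/
noncomputable def topHom : (XX ℤ G m2 2 ⟶ RRg G) →ₗ[ℤ] ℤ where
  toFun x := K.aw (valg x (0 : Fin 1))
  map_add' _ _ := map_add K.aw _ _
  map_smul' c x := by
    change K.aw (c • valg x (0 : Fin 1)) = c • K.aw (valg x (0 : Fin 1))
    exact map_zsmul K.aw c _

include K in
theorem H2 : Nonempty (groupCohomology (RRg G) 2 ≃+ ℤ) := by
  obtain ⟨e⟩ := K.good.top (RRg G) 1 (by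
      intro x
      rw [valg_zero_iff]
      intro i
      exact Fin.elim0 i) K.topHom
    (by
      intro c
      refine ⟨morg m2 2 (fun _ => MonoidAlgebra.single 1 c), ?_⟩
      exact (congrArg K.aw (valg_morg (m := m2) 2 (fun _ => MonoidAlgebra.single 1 c) (0 : Fin 1))).trans
        (K.aw1 c))
    (by
      intro x
      change K.aw (valg (m := m2) (n := 2) x (0 : Fin 1)) = 0 ↔ _
      constructor
      · intro h
        obtain ⟨a, c, he⟩ := K.l4 _ h
        refine ⟨morg m2 1 ![c, -(K.ali * a)], ?_⟩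
        rw [valg_comp]
        intro (i : Fin 1)
        rw [Subsingleton.elim i 0]
        change ∑ j : Fin 2, K.Mx 1 (0 : Fin 1) j * valg (morg m2 1 ![c, -(K.ali * a)]) j
          = valg (m := m2) (n := 2) x (0 : Fin 1)
        have hv : ∀ i : Fin 2, valg (m := m2) (n := 1) (morg m2 1 ![c, -(K.ali * a)]) i =
            (![c, -(K.ali * a)] : Fin 2 → _) i :=
          valg_morg (m := m2) 1 ![c, -(K.ali * a)]
        rw [Fin.sum_univ_two, hv, hv]
        change (K.T - K.al) * c + -(K.al * K.z) * -(K.ali * a)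
          = valg (m := m2) (n := 2) x (0 : Fin 1)
        linear_combination (norm := noncomm_ring) -he - K.al * K.aliz * a + K.a1 * K.z * a
      · rintro ⟨y, hy⟩
        rw [valg_comp] at hy
        have h := hy (0 : Fin 1)
        change ∑ j : Fin 2, K.Mx 1 (0 : Fin 1) j * valg y j = valg (m := m2) (n := 2) x (0 : Fin 1) at h
        rw [← h, Fin.sum_univ_two]
        change K.aw ((K.T - K.al) * _ + -(K.al * K.z) * _) = 0
        rw [map_add, K.awT, neg_mul, map_neg, K.awz]; ring)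
  exact ⟨e.toAddEquiv⟩

include K in
theorem isPD : IsPD 2 G := by
  refine ⟨K.good.fpart 2 ?_, ?_, K.H2⟩
  · intro i hi
    obtain ⟨j, rfl⟩ : ∃ j, i = j + 3 := ⟨i - 3, by omega⟩
    rfl
  · intro i hi
    match i, hi with
    | 0, _ => exact K.H0
    | 1, _ => exact K.H1
    | n + 3, _ =>
      apply K.good.vanish_succ _ (n + 2)
      intro x _
      refine ⟨0, ?_⟩
      have h1 : x = 0 := by
        rw [hom_eq_zero_iff]
        intro j
        exact Fin.elim0 j
      rw [h1]
      simp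

end KosT

end Pool.Agent.H312PD
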