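import Mathlib
import Pool.Agent.H312PD.Grp3
import Pool.Agent.H312PD.PD2

/-! The groups `⟨z, t | tzt⁻¹ = z^{±1}⟩` are `PD_2`-groups. -/

namespace Pool.Agent.H312PD

open Finsupp

/-- elements `z^a t^c` -/
@[ext] structure K2 (u : Bool) where
  a : ℤ
  c : ℤ

namespace K2
variable {u : Bool}

instance : Mul (K2 u) := ⟨fun g h => ⟨g.a + sf u g.c * h.a, g.c + h.c⟩⟩
instance : One (K2 u) := ⟨⟨0, 0⟩⟩
instance : Inv (K2 u) := ⟨fun g => ⟨- sf u g.c * g.a, -g.c⟩⟩

@[simp] lemma mul_a (g h : K2 u) : (g * h).a = g.a + sf u g.c * h.a := rfl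
@[simp] lemma mul_c (g h : K2 u) : (g * h).c = g.c + h.c := rfl
@[simp] lemma one_a : (1 : K2 u).a = 0 := rfl
@[simp] lemma one_c : (1 : K2 u).c = 0 := rfl
@[simp] lemma inv_a (g : K2 u) : (g⁻¹).a = - sf u g.c * g.a := rfl
@[simp] lemma inv_c (g : K2 u) : (g⁻¹).c = - g.c := rfl

instance : Group (K2 u) := Group.ofLeftAxioms
  (by
    intro g h k
    ext
    · simp only [mul_a, mul_c, sf_add]; ring
    · simp only [mul_c]; ring)
  (by
    intro g
    ext <;> simp)
  (by
    intro g
    ext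
    · simp only [mul_a, inv_a, inv_c, sf_neg, one_a]; ring
    · simp)

end K2

/-- operators with the regular sequence property, two steps -/
structure Tower2 (M M2 : Type) [AddCommGroup M] [AddCommGroup M2] where
  D1 : M →+ M
  D3 : M →+ M
  E3 : M2 →+ M2
  p1 : M →+ M2
  p3 : M2 →+ ℤ
  inj1 : Function.Injective D1
  inj3 : Function.Injective E3
  z1 : ∀ m, p1 (D1 m) = 0
  ex1 : ∀ m, p1 m = 0 → ∃ k, D1 k = m
  ex3 : ∀ m, p3 m = 0 → ∃ k, E3 k = m
  s1 : Function.Surjective p1
  c3 : ∀ m, p1 (D3 m) = E3 (p1 m)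

namespace Tower2
variable {M M2 : Type} [AddCommGroup M] [AddCommGroup M2] (T : Tower2 M M2)
include T

lemma r1 {m : M} (h : T.D1 m = 0) : m = 0 := T.inj1 (by rw [h, map_zero])

lemma r3 {m a : M} (h : T.D3 m = T.D1 a) : ∃ c, m = T.D1 c := by
  obtain ⟨k, hk⟩ := T.ex1 m (T.inj3 (by rw [← T.c3, h, T.z1, map_zero]))
  exact ⟨k, hk.symm⟩

lemma r4 {m : M} (h : T.p3 (T.p1 m) = 0) : ∃ a c, m = T.D1 a + T.D3 c := by
  obtain ⟨v, hv⟩ := T.ex3 _ h
  obtain ⟨w, rfl⟩ := T.s1 v
  obtain ⟨k, hk⟩ := T.ex1 (m - T.D3 w) (by rw [map_sub, T.c3, hv, sub_self])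
  exact ⟨k, w, by rw [hk]; abel⟩

end Tower2

namespace G2
variable (u : Bool)

abbrev R2 : Type := MonoidAlgebra ℤ (K2 u)

def zz : K2 u := ⟨1, 0⟩
def tt : K2 u := ⟨0, 1⟩

@[simp] lemma zz_a : (zz u).a = 1 := rfl
@[simp] lemma zz_c : (zz u).c = 0 := rfl
@[simp] lemma tt_a : (tt u).a = 0 := rfl
@[simp] lemma tt_c : (tt u).c = 1 := rfl

noncomputable def q1 : R2 u →+ (ℤ →₀ ℤ) :=
  (mapDomain.addMonoidHom (fun g : K2 u => g.c)).comp MonoidAlgebra.coeffAddEquiv.toAddMonoidHom

lemma q1_apply (m : R2 u) : q1 u m = mapDomain (fun g : K2 u => g.c) m.coeff := rfl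

lemma q1_surj : Function.Surjective (q1 u) := by
  intro m
  refine ⟨MonoidAlgebra.ofCoeff (mapDomain (fun p : ℤ => (⟨0, p⟩ : K2 u)) m), ?_⟩
  rw [q1_apply, MonoidAlgebra.coeff_ofCoeff, ← mapDomain_comp]
  exact mapDomain_id

noncomputable def TL : Tower2 (R2 u) (ℤ →₀ ℤ) where
  D1 := dl (zz u)
  D3 := dl (tt u)
  E3 := sh (fun c => c + 1)
  p1 := q1 u
  p3 := q3
  inj1 := by
    intro m n h
    apply el_ext
    apply sh_injective (fun h => zz u * h) (mul_right_injective (zz u)) (fun g => g.a)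
      (by intro s; simp; ring)
    rw [← coeff_dl, ← coeff_dl, h]
  inj3 := sh_injective _ (add_left_injective 1) (fun c => c) (fun _ => rfl)
  z1 m := by rw [q1_apply, coeff_dl]; exact map_sh _ _ (by intro s; simp) _
  ex1 m hm := by
    obtain ⟨k, hk⟩ := sh_ker' (Equiv.mulLeft (zz u)) (fun g : K2 u => g.c) (fun p => ⟨0, p⟩)
      (fun g => g.a) (by intro s; simp; ring) (by intro s; simp) (fun _ => rfl) (fun _ => rfl)
      (by
        intro s u h1 h2
        exact K2.ext h2 h1) m.coeff hm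
    exact ⟨MonoidAlgebra.ofCoeff k, el_ext (by rw [coeff_dl]; exact hk)⟩
  ex3 := ex_three
  s1 := q1_surj u
  c3 m := by
    rw [q1_apply, q1_apply, coeff_dl]
    exact map_sh_comm _ _ _ (by intro s; simp [add_comm]) _

noncomputable def TR : Tower2 (R2 u) (ℤ →₀ ℤ) where
  D1 := dr (zz u)
  D3 := dr (tt u)
  E3 := sh (fun c => c + 1)
  p1 := q1 u
  p3 := q3
  inj1 := by
    intro m n h
    apply el_ext
    apply sh_injective (fun h => h * zz u) (mul_left_injective (zz u)) (fun g => sf u g.c * g.a)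
      (by intro s; have := sf_mul_self u s.c; simp; linear_combination this)
    rw [← coeff_dr, ← coeff_dr, h]
  inj3 := sh_injective _ (add_left_injective 1) (fun c => c) (fun _ => rfl)
  z1 m := by rw [q1_apply, coeff_dr]; exact map_sh _ _ (by intro s; simp) _
  ex1 m hm := by
    obtain ⟨k, hk⟩ := sh_ker' (Equiv.mulRight (zz u)) (fun g : K2 u => g.c) (fun p => ⟨0, p⟩)
      (fun g => sf u g.c * g.a) (by intro s; have := sf_mul_self u s.c; simp; linear_combination this)
      (by intro s; simp) (fun _ => by simp) (fun _ => rfl)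
      (by
        intro s v h1 h2
        have h1' : s.c = v.c := h1
        have h3 : s.a = v.a := by
          have e1 := sf_mul_self u s.c
          have h2' : sf u s.c * s.a = sf u v.c * v.a := h2
          rw [← h1'] at h2'
          linear_combination sf u s.c * h2' - (s.a - v.a) * e1
        exact K2.ext h3 h1) m.coeff hm
    exact ⟨MonoidAlgebra.ofCoeff k, el_ext (by rw [coeff_dr]; exact hk)⟩
  ex3 := ex_three
  s1 := q1_surj u
  c3 m := by
    rw [q1_apply, q1_apply, coeff_dr]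
    exact map_sh_comm _ _ _ (by intro s; simp) _

noncomputable def Z : R2 u := el (zz u)
noncomputable def Zi : R2 u := el (zz u)⁻¹
noncomputable def T : R2 u := el (tt u)

lemma Z_Zi : Z u * Zi u = 1 := by rw [Z, Zi, el_mul, mul_inv_cancel, el_one]
lemma Zi_Z : Zi u * Z u = 1 := by rw [Z, Zi, el_mul, inv_mul_cancel, el_one]
lemma T_Z1 : T true * Z true = Zi true * T true := by
  rw [Z, Zi, T, el_mul, el_mul]; exact congrArg el (by ext <;> simp [sf])
lemma T_Z0 : T false * Z false = Z false * T false := by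
  rw [Z, T, el_mul, el_mul]; exact congrArg el (by ext <;> simp [sf])

noncomputable def aug : R2 u →+ ℤ := q3.comp (q1 u)

lemma aug_single (g : K2 u) (r : ℤ) : aug u (MonoidAlgebra.single g r) = r := by
  simp [aug, q1_apply, q3_apply, mapDomain_single]

lemma ag_eq (r : R2 u) : ag ℤ (K2 u) r = aug u r := by
  induction r using MonoidAlgebra.induction_linear with
  | zero => rw [ag_zero, map_zero]
  | add x y hx hy => rw [ag_add, hx, hy, map_add]
  | single g r => rw [ag_single, aug_single]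

lemma rr1 {m : R2 u} (h : m * (Z u - 1) = 0) : m = 0 := (TR u).r1 h
lemma rr3 {m a : R2 u} (h : m * (T u - 1) = a * (Z u - 1)) :
    ∃ c, m = c * (Z u - 1) := (TR u).r3 (m := m) (a := a) h
lemma rr4 {m : R2 u} (h : ag ℤ (K2 u) m = 0) :
    ∃ a c, m = a * (Z u - 1) + c * (T u - 1) :=
  (TR u).r4 (m := m) (by rw [ag_eq] at h; exact h)

lemma ll1 {m : R2 u} (h : (Z u - 1) * m = 0) : m = 0 := (TL u).r1 h
lemma ll3 {m a : R2 u} (h : (T u - 1) * m = (Z u - 1) * a) :
    ∃ c, m = (Z u - 1) * c := (TL u).r3 (m := m) (a := a) h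
lemma ll4 {m : R2 u} (h : ag ℤ (K2 u) m = 0) :
    ∃ a c, m = (Z u - 1) * a + (T u - 1) * c :=
  (TL u).r4 (m := m) (by rw [ag_eq] at h; exact h)

/-- `g ↦ (-1)^c g` -/
noncomputable def chi : K2 u →* R2 u where
  toFun g := MonoidAlgebra.single g (sg g.c)
  map_one' := by simp [MonoidAlgebra.one_def]
  map_mul' g h := by
    rw [MonoidAlgebra.single_mul_single, K2.mul_c, sg_add]

noncomputable def tw : R2 u →ₐ[ℤ] R2 u := MonoidAlgebra.lift ℤ (R2 u) (K2 u) (chi u)

lemma tw_single (g : K2 u) (r : ℤ) : tw u (MonoidAlgebra.single g r) = MonoidAlgebra.single g (r * sg g.c) := by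
  rw [tw, MonoidAlgebra.lift_single]
  change r • MonoidAlgebra.single g (sg g.c) = _
  rw [MonoidAlgebra.smul_single, smul_eq_mul]

lemma tw_tw (m : R2 u) : tw u (tw u m) = m := by
  induction m using MonoidAlgebra.induction_linear with
  | zero => simp
  | add x y hx hy => rw [map_add, map_add, hx, hy]
  | single g r => rw [tw_single, tw_single, mul_assoc, sg_mul_self, mul_one]

lemma tw_Z : tw u (Z u) = Z u := by rw [Z, el, tw_single]; simp
lemma tw_Zi : tw u (Zi u) = Zi u := by rw [Zi, el, tw_single]; simp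
lemma tw_T : tw u (T u) = - T u := by
  rw [T, el, tw_single, tt_c, sg_one, mul_neg, mul_one, MonoidAlgebra.single_neg]

lemma ll3' {m a : R2 u} (h : (T u + 1) * m = (Z u - 1) * a) :
    ∃ c, m = (Z u - 1) * c := by
  have h1 := congrArg (tw u) h
  rw [map_mul, map_add, map_mul, map_sub, tw_T, tw_Z, map_one] at h1
  obtain ⟨c, hcd⟩ := ll3 u (m := tw u m) (a := -tw u a) (by
    linear_combination (norm := noncomm_ring) -h1)
  refine ⟨tw u c, ?_⟩
  have h2 := congrArg (tw u) hcd
  rw [tw_tw, map_mul, map_sub, tw_Z, map_one] at h2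
  exact h2

lemma ll4' {m : R2 u} (h : ag ℤ (K2 u) (tw u m) = 0) :
    ∃ a c, m = (Z u - 1) * a + (T u + 1) * c := by
  obtain ⟨a, c, habc⟩ := ll4 u h
  refine ⟨tw u a, -tw u c, ?_⟩
  have h2 := congrArg (tw u) habc
  rw [tw_tw, map_add, map_mul, map_mul, map_sub, map_sub, tw_Z, tw_T, map_one] at h2
  linear_combination (norm := noncomm_ring) h2

lemma ag_Z : ag ℤ (K2 u) (Z u) = 1 := ag_el _
lemma ag_Zi : ag ℤ (K2 u) (Zi u) = 1 := ag_el _
lemma ag_T : ag ℤ (K2 u) (T u) = 1 := ag_el _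

/-- `ℤ²` -/
noncomputable def kF : KosT (K2 false) where
  z := Z false - 1
  T := T false
  al := 1
  ali := 1
  alz := by noncomm_ring
  a1 := by noncomm_ring
  a2 := by noncomm_ring
  Tz := by linear_combination (norm := noncomm_ring) T_Z0
  r1 m h := rr1 false h
  r3 m a h := rr3 false h
  l1 m h := ll1 false h
  l3 m a h := ll3 false h
  ez := by rw [ag_sub, ag_Z, ag_one, sub_self]
  eT := by rw [ag_sub, ag_T, ag_one, sub_self]
  r4 m h := rr4 false h
  aw := agh (K2 false)
  aw1 n := ag_single 1 n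
  awz m := by
    change ag ℤ (K2 false) (1 * (Z false - 1) * m) = 0
    rw [ag_mul, ag_mul, ag_sub, ag_Z, ag_one]; ring
  awT m := by
    change ag ℤ (K2 false) ((T false - 1) * m) = 0
    rw [ag_mul, ag_sub, ag_T, ag_one]; ring
  l4 m h := ll4 false h

/-- Klein bottle group -/
noncomputable def kT : KosT (K2 true) where
  z := Z true - 1
  T := T true
  al := -Zi true
  ali := -Z true
  alz := by linear_combination (norm := noncomm_ring) -Zi_Z true + Z_Zi true
  a1 := by linear_combination (norm := noncomm_ring) Zi_Z true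
  a2 := by linear_combination (norm := noncomm_ring) Z_Zi true
  Tz := by linear_combination (norm := noncomm_ring) T_Z1 + Zi_Z true * T true
  r1 m h := rr1 true h
  r3 m a h := rr3 true h
  l1 m h := ll1 true h
  l3 m a h := ll3' true (m := m) (a := a + Zi true * m) (by
    linear_combination (norm := noncomm_ring) h - Z_Zi true * m)
  ez := by rw [ag_sub, ag_Z, ag_one, sub_self]
  eT := by rw [ag_sub, ag_T, ag_one, sub_self]
  r4 m h := rr4 true h
  aw := (agh (K2 true)).comp (tw true : R2 true →ₐ[ℤ] R2 true).toRingHom.toAddMonoidHom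
  aw1 n := by
    change ag ℤ (K2 true) (tw true (MonoidAlgebra.single 1 n)) = n
    rw [tw_single, ag_single]; simp
  awz m := by
    change ag ℤ (K2 true) (tw true (-Zi true * (Z true - 1) * m)) = 0
    rw [map_mul, map_mul, map_sub, tw_Z, map_one, ag_mul, ag_mul, ag_sub, ag_Z, ag_one]; ring
  awT m := by
    change ag ℤ (K2 true) (tw true ((T true - -Zi true) * m)) = 0
    rw [map_mul, map_sub, map_neg, tw_T, tw_Zi, ag_mul, ag_sub, ag_neg, ag_neg, ag_T, ag_Zi]; ring
  l4 m h := by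
    obtain ⟨a, c, habc⟩ := ll4' true (m := m) h
    refine ⟨a + Zi true * c, c, ?_⟩
    linear_combination (norm := noncomm_ring) habc - Z_Zi true * c

noncomputable def kos (u : Bool) : KosT (K2 u) := by
  cases u
  · exact kF
  · exact kT

end G2

/-! ### transport along an isomorphism -/

section transport
variable {G G' : Type} [Group G] [Group G'] (e : G ≃* G')

noncomputable def ph : MonoidAlgebra ℤ G ≃ₐ[ℤ] MonoidAlgebra ℤ G' := MonoidAlgebra.domCongr ℤ ℤ e

lemma ag_ph (r : MonoidAlgebra ℤ G) : ag ℤ G' (ph e r) = ag ℤ G r := by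
  induction r using MonoidAlgebra.induction_linear with
  | zero => rw [map_zero, ag_zero, ag_zero]
  | add x y hx hy => rw [map_add, ag_add, ag_add, hx, hy]
  | single g r => rw [ph, MonoidAlgebra.domCongr_single, ag_single, ag_single]

lemma ag_ph_symm (r : MonoidAlgebra ℤ G') : ag ℤ G ((ph e).symm r) = ag ℤ G' r := by
  rw [← ag_ph e, AlgEquiv.apply_symm_apply]

noncomputable def KosT.map (K : KosT G) : KosT G' where
  z := ph e K.z
  T := ph e K.T
  al := ph e K.al
  ali := ph e K.ali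
  alz := by rw [← map_mul, ← map_mul, K.alz]
  a1 := by rw [← map_mul, K.a1, map_one]
  a2 := by rw [← map_mul, K.a2, map_one]
  Tz := by rw [← map_mul, ← map_mul, ← map_mul, K.Tz]
  r1 m h := by
    have h1 := congrArg (ph e).symm h
    rw [map_mul, AlgEquiv.symm_apply_apply, map_zero] at h1
    have h2 := K.r1 _ h1
    simpa using h2
  r3 m a h := by
    have h1 := congrArg (ph e).symm h
    rw [map_mul, map_mul, map_sub, map_one, AlgEquiv.symm_apply_apply, AlgEquiv.symm_apply_apply] at h1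
    obtain ⟨c, hc⟩ := K.r3 _ _ h1
    refine ⟨ph e c, ?_⟩
    rw [← map_mul, ← hc, AlgEquiv.apply_symm_apply]
  l1 m h := by
    have h1 := congrArg (ph e).symm h
    rw [map_mul, AlgEquiv.symm_apply_apply, map_zero] at h1
    have h2 := K.l1 _ h1
    simpa using h2
  l3 m a h := by
    have h1 := congrArg (ph e).symm h
    rw [map_mul, map_mul, map_sub, AlgEquiv.symm_apply_apply, AlgEquiv.symm_apply_apply,
      AlgEquiv.symm_apply_apply] at h1
    obtain ⟨c, hc⟩ := K.l3 _ _ h1
    refine ⟨ph e c, ?_⟩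
    rw [← map_mul, ← hc, AlgEquiv.apply_symm_apply]
  ez := by rw [ag_ph, K.ez]
  eT := by rw [← map_one (ph e), ← map_sub, ag_ph, K.eT]
  r4 m h := by
    obtain ⟨a, c, hac⟩ := K.r4 ((ph e).symm m) (by rw [ag_ph_symm, h])
    refine ⟨ph e a, ph e c, ?_⟩
    have := congrArg (ph e) hac
    rw [AlgEquiv.apply_symm_apply] at this
    rw [this]; simp
  aw := K.aw.comp ((ph e).symm : MonoidAlgebra ℤ G' →ₐ[ℤ] MonoidAlgebra ℤ G).toRingHom.toAddMonoidHom
  aw1 n := by
    change K.aw ((ph e).symm (MonoidAlgebra.single 1 n)) = n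
    have : (ph e).symm (MonoidAlgebra.single 1 n) = MonoidAlgebra.single 1 n := by
      rw [AlgEquiv.symm_apply_eq, ph, MonoidAlgebra.domCongr_single, map_one]
    rw [this, K.aw1]
  awz m := by
    change K.aw ((ph e).symm (ph e K.al * ph e K.z * m)) = 0
    rw [map_mul (ph e).symm, map_mul (ph e).symm, AlgEquiv.symm_apply_apply, AlgEquiv.symm_apply_apply, K.awz]
  awT m := by
    change K.aw ((ph e).symm ((ph e K.T - ph e K.al) * m)) = 0
    rw [map_mul (ph e).symm, map_sub (ph e).symm, AlgEquiv.symm_apply_apply, AlgEquiv.symm_apply_apply, K.awT]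
  l4 m h := by
    obtain ⟨a, c, hac⟩ := K.l4 ((ph e).symm m) h
    refine ⟨ph e a, ph e c, ?_⟩
    have := congrArg (ph e) hac
    rw [AlgEquiv.apply_symm_apply] at this
    rw [this]; simp

end transport

theorem isPD2_of_equiv {Γ : Type} [Group Γ] (u : Bool) (e : K2 u ≃* Γ) : IsPD 2 Γ :=
  ((G2.kos u).map e).isPD

end Pool.Agent.H312PD
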