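import Mathlib
import Pool.Agent.H312PD.Grp3

namespace Pool.Agent.H312PD

open Finsupp

lemma ag_Z (u : Bool) : ag ℤ (KK u) (Z u) = 1 := ag_el _
lemma ag_Zi (u : Bool) : ag ℤ (KK u) (Zi u) = 1 := ag_el _
lemma ag_X (u : Bool) : ag ℤ (KK u) (X u) = 1 := ag_el _
lemma ag_Xi (u : Bool) : ag ℤ (KK u) (Xi u) = 1 := ag_el _
lemma ag_T (u : Bool) : ag ℤ (KK u) (T u) = 1 := ag_el _

/-- the data for `Klein bottle group × ℤ` -/
noncomputable def kF : KosG (KK false) where
  z := Z false - 1
  x := X false - 1
  T := T false
  al := -Zi false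
  ali := -Z false
  be := 1
  bei := 1
  xz := by linear_combination (norm := noncomm_ring) X_Z false
  alz := by linear_combination (norm := noncomm_ring) -Zi_Z false + Z_Zi false
  alx := by linear_combination (norm := noncomm_ring) X_Zi false
  bez := by noncomm_ring
  bex := by noncomm_ring
  albe := by noncomm_ring
  a1 := by linear_combination (norm := noncomm_ring) Zi_Z false
  a2 := by linear_combination (norm := noncomm_ring) Z_Zi false
  b1 := by noncomm_ring
  b2 := by noncomm_ring
  Tz := by linear_combination (norm := noncomm_ring) T_Z false + Zi_Z false * T false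
  Tx := by linear_combination (norm := noncomm_ring) T_X0
  r1 m h := rr1 false h
  r2 m n h := rr2 false h
  r3 m a b h := rr3 false h
  l1 m h := ll1 false h
  l2 m n h := ll2 false h
  l3 m a b h := ll3' false (m := m) (a := a + Zi false * m) (b := b) (by
    linear_combination (norm := noncomm_ring) h - Z_Zi false * m)
  ez := by rw [ag_sub, ag_Z, ag_one, sub_self]
  ex := by rw [ag_sub, ag_X, ag_one, sub_self]
  eT := by rw [ag_sub, ag_T, ag_one, sub_self]
  r4 m h := rr4 false h
  aw := (agh (KK false)).comp (tw false : R3 false →ₐ[ℤ] R3 false).toRingHom.toAddMonoidHom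
  aw1 n := by
    change ag ℤ (KK false) (tw false (MonoidAlgebra.single 1 n)) = n
    rw [tw_single, ag_single]; simp
  awz m := by
    change ag ℤ (KK false) (tw false (-Zi false * (Z false - 1) * m)) = 0
    rw [map_mul, map_mul, map_sub, tw_Z, map_one, ag_mul, ag_mul, ag_sub, ag_Z, ag_one]; ring
  awx m := by
    change ag ℤ (KK false) (tw false (1 * (X false - 1) * m)) = 0
    rw [map_mul, map_mul, map_sub, tw_X, map_one, ag_mul, ag_mul, ag_sub, ag_X, ag_one]; ring
  awT m := by
    change ag ℤ (KK false) (tw false ((T false - -Zi false * 1) * m)) = 0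
    rw [mul_one, map_mul, map_sub, map_neg, tw_T, tw_Zi, ag_mul, ag_sub, ag_neg, ag_neg, ag_T, ag_Zi]; ring
  l4 m h := by
    obtain ⟨a, b, c, habc⟩ := ll4' false (m := m) h
    refine ⟨a + Zi false * c, b, c, ?_⟩
    linear_combination (norm := noncomm_ring) habc - Z_Zi false * c

/-- the data for `ℤ² ⋊₋₁ ℤ` -/
noncomputable def kT : KosG (KK true) where
  z := Z true - 1
  x := X true - 1
  T := T true
  al := -Zi true
  ali := -Z true
  be := -Xi true
  bei := -X true
  xz := by linear_combination (norm := noncomm_ring) X_Z true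
  alz := by linear_combination (norm := noncomm_ring) -Zi_Z true + Z_Zi true
  alx := by linear_combination (norm := noncomm_ring) X_Zi true
  bez := by linear_combination (norm := noncomm_ring) Z_Xi true
  bex := by linear_combination (norm := noncomm_ring) -Xi_X true + X_Xi true
  albe := by linear_combination (norm := noncomm_ring) Zi_Xi true
  a1 := by linear_combination (norm := noncomm_ring) Zi_Z true
  a2 := by linear_combination (norm := noncomm_ring) Z_Zi true
  b1 := by linear_combination (norm := noncomm_ring) Xi_X true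
  b2 := by linear_combination (norm := noncomm_ring) X_Xi true
  Tz := by linear_combination (norm := noncomm_ring) T_Z true + Zi_Z true * T true
  Tx := by linear_combination (norm := noncomm_ring) T_X1 + Xi_X true * T true
  r1 m h := rr1 true h
  r2 m n h := rr2 true h
  r3 m a b h := rr3 true h
  l1 m h := ll1 true h
  l2 m n h := ll2 true h
  l3 m a b h := ll3 true (m := m) (a := a - Zi true * m) (b := b - Zi true * Xi true * m) (by
    linear_combination (norm := noncomm_ring) h + Z_Zi true * m + X_Zi true * Xi true * m
      + Zi true * X_Xi true * m)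
  ez := by rw [ag_sub, ag_Z, ag_one, sub_self]
  ex := by rw [ag_sub, ag_X, ag_one, sub_self]
  eT := by rw [ag_sub, ag_T, ag_one, sub_self]
  r4 m h := rr4 true h
  aw := agh (KK true)
  aw1 n := ag_single 1 n
  awz m := by
    change ag ℤ (KK true) (-Zi true * (Z true - 1) * m) = 0
    rw [ag_mul, ag_mul, ag_sub, ag_Z, ag_one]; ring
  awx m := by
    change ag ℤ (KK true) (-Xi true * (X true - 1) * m) = 0
    rw [ag_mul, ag_mul, ag_sub, ag_X, ag_one]; ring
  awT m := by
    change ag ℤ (KK true) ((T true - -Zi true * -Xi true) * m) = 0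
    rw [ag_mul, ag_sub, ag_mul, ag_neg, ag_neg, ag_T, ag_Zi, ag_Xi]; ring
  l4 m h := by
    obtain ⟨a, b, c, habc⟩ := ll4 true (m := m) h
    refine ⟨a - Zi true * c, b - Zi true * Xi true * c, c, ?_⟩
    linear_combination (norm := noncomm_ring) habc + Z_Zi true * c + X_Zi true * Xi true * c
      + Zi true * X_Xi true * c

theorem isPD3 (u : Bool) : IsPD 3 (KK u) := by
  cases u
  · exact kF.isPD
  · exact kT.isPD

end Pool.Agent.H312PD
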