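import Mathlib

/-! Splittings of groups over a subgroup, and an obstruction. -/

namespace Pool.Agent.H312PD

open Monoid

/-- `K` splits over the subgroup `H`: either `K` is the internal amalgamated free product
`A *_H B` of two subgroups `A = F false`, `B = F true` with `A ≠ H ≠ B`, or `K` is the internal HNN
extension with base `A ≥ H`, stable letter `t` and associated subgroups `H` and `C = tHt⁻¹`. -/
def SplitsOver (K : Type) [Group K] (H : Subgroup K) : Prop :=
  (∃ (F : Bool → Subgroup K) (hF : ∀ i, H ≤ F i), (∀ i, F i ≠ H) ∧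
    Function.Bijective (Monoid.PushoutI.lift (φ := fun i => Subgroup.inclusion (hF i))
      (fun i => (F i).subtype) H.subtype (fun _ => rfl))) ∨
  (∃ (A : Subgroup K) (_ : H ≤ A) (C : Subgroup A) (φ : H.subgroupOf A ≃* C) (t : K)
    (h : ∀ a : H.subgroupOf A, t * A.subtype a = A.subtype (φ a) * t),
    Function.Bijective (HNNExtension.lift A.subtype t h : HNNExtension A (H.subgroupOf A) C φ →* K))

section
variable {K : Type} [Group K] {H : Subgroup K}

lemma not_amalgam (hlaw : ∀ g h : K, g ^ 2 * h ^ 2 = h ^ 2 * g ^ 2)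
    (hself : ∀ g : K, (∀ h ∈ H, g * h * g⁻¹ ∈ H) → g ∈ H)
    (F : Bool → Subgroup K) (hF : ∀ i, H ≤ F i) (hne : ∀ i, F i ≠ H)
    (L : Monoid.PushoutI (fun i => Subgroup.inclusion (hF i)) →* K)
    (hL : ∀ (i : Bool) (x : F i), L (Monoid.PushoutI.of i x) = (x : K))
    (hinj : Function.Injective L) : False := by
  have key : ∀ i, ∃ x ∈ F i, x ∉ H := by
    intro i
    by_contra hcon
    push Not at hcon
    exact hne i (le_antisymm (fun x hx => hcon x hx) (hF i))
  obtain ⟨a, haF, haH⟩ := key false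
  obtain ⟨b, hbF, hbH⟩ := key true
  have h1 : ∃ h ∈ H, a * h * a⁻¹ ∉ H := by
    by_contra hcon
    push Not at hcon
    exact haH (hself a hcon)
  obtain ⟨h, hh, hconj⟩ := h1
  have ha'F : a * h ∈ F false := (F false).mul_mem haF (hF false hh)
  have ha'H : a * h ∉ H := fun hc => haH ((Subgroup.mul_mem_cancel_right H hh).1 hc)
  let A : F false := ⟨a, haF⟩
  let A' : F false := ⟨a * h, ha'F⟩
  let B : F true := ⟨b, hbF⟩
  let D : F false := A' * A⁻¹
  have hD : (D : K) ∉ H := hconj
  have hA : (A : K) ∉ H := haH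
  have hA' : (A' : K) ∉ H := ha'H
  have hB : (B : K) ∉ H := hbH
  have hAi : ((A⁻¹ : F false) : K) ∉ H := fun hc => hA ((Subgroup.inv_mem_iff H).1 hc)
  have hAi' : ((A'⁻¹ : F false) : K) ∉ H := fun hc => hA' ((Subgroup.inv_mem_iff H).1 hc)
  have hBi : ((B⁻¹ : F true) : K) ∉ H := fun hc => hB ((Subgroup.inv_mem_iff H).1 hc)
  have one_ne : ∀ (i : Bool) (x : F i), (x : K) ∉ H → x ≠ 1 := by
    rintro i x hx rfl
    exact hx H.one_mem
  have hmem : ∀ l ∈ ([⟨false, A⟩, ⟨true, B⟩, ⟨false, A⟩, ⟨true, B⟩, ⟨false, A'⟩, ⟨true, B⟩, ⟨false, D⟩,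
      ⟨true, B⁻¹⟩, ⟨false, A⁻¹⟩, ⟨true, B⁻¹⟩, ⟨false, A'⁻¹⟩, ⟨true, B⁻¹⟩, ⟨false, A'⁻¹⟩] :
        List (Σ i, F i)), (l.2 : K) ∉ H := by
    intro l hl
    simp only [List.mem_cons, List.not_mem_nil, or_false] at hl
    rcases hl with rfl | rfl | rfl | rfl | rfl | rfl | rfl | rfl | rfl | rfl | rfl | rfl | rfl
    all_goals assumption
  let w : Monoid.CoprodI.Word (fun i => F i) :=
    { toList := [⟨false, A⟩, ⟨true, B⟩, ⟨false, A⟩, ⟨true, B⟩, ⟨false, A'⟩, ⟨true, B⟩, ⟨false, D⟩,
      ⟨true, B⁻¹⟩, ⟨false, A⁻¹⟩, ⟨true, B⁻¹⟩, ⟨false, A'⁻¹⟩, ⟨true, B⁻¹⟩, ⟨false, A'⁻¹⟩]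
      ne_one := fun l hl => one_ne l.1 l.2 (hmem l hl)
      chain_ne := by simp }
  have hred : Monoid.PushoutI.Reduced (fun i => Subgroup.inclusion (hF i)) w := by
    intro g hg hr
    obtain ⟨y, hy⟩ := hr
    apply hmem g hg
    rw [← hy]
    exact y.2
  have hprod : (Monoid.PushoutI.ofCoprodI w.prod :
      Monoid.PushoutI (fun i => Subgroup.inclusion (hF i))) = 1 := by
    apply hinj
    rw [map_one]
    simp only [w, Monoid.CoprodI.Word.prod, List.map_cons, List.map_nil, List.prod_cons, List.prod_nil,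
      map_mul, map_one, Monoid.PushoutI.ofCoprodI_of, hL]
    have e := hlaw (a * b) (a * h * b)
    have e2 : (a * b) ^ 2 * (a * h * b) ^ 2 * ((a * b) ^ 2)⁻¹ * ((a * h * b) ^ 2)⁻¹ = 1 := by
      rw [e]; group
    refine Eq.trans ?_ e2
    simp only [A, A', B, D, Subgroup.coe_mul, Subgroup.coe_inv, pow_two, mul_inv_rev]
    group
  have hw := Monoid.PushoutI.Reduced.eq_empty_of_mem_range
    (fun i => Subgroup.inclusion_injective (hF i)) hred (by rw [hprod]; exact Subgroup.one_mem _)
  have := congrArg Monoid.CoprodI.Word.toList hw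
  simp [w, Monoid.CoprodI.Word.empty] at this

lemma not_hnn (hlaw : ∀ g h : K, g ^ 2 * h ^ 2 = h ^ 2 * g ^ 2)
    (hself : ∀ g : K, (∀ h ∈ H, g * h * g⁻¹ ∈ H) → g ∈ H)
    (A : Subgroup K) (hA : H ≤ A) (C : Subgroup A) (φ : H.subgroupOf A ≃* C) (t : K)
    (h : ∀ a : H.subgroupOf A, t * A.subtype a = A.subtype (φ a) * t)
    (hinj : Function.Injective (HNNExtension.lift A.subtype t h :
      HNNExtension A (H.subgroupOf A) C φ →* K)) : False := by
  by_cases hc : ∃ a ∈ A, a ∉ H
  · obtain ⟨a, haA, haH⟩ := hc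
    let a' : A := ⟨a, haA⟩
    have ha' : a' ∉ H.subgroupOf A := fun hc => haH (Subgroup.mem_subgroupOf.1 hc)
    let w : HNNExtension.NormalWord.ReducedWord A (H.subgroupOf A) C :=
      { head := 1
        toList := [(1, 1), (1, a'), (1, a'), (-1, 1), (-1, a'⁻¹), (-1, a'⁻¹)]
        chain := by simp [ha'] }
    have hp : HNNExtension.NormalWord.ReducedWord.prod φ w = 1 := by
      apply hinj
      rw [map_one]
      simp only [w, HNNExtension.NormalWord.ReducedWord.prod, List.map_cons, List.map_nil,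
        List.prod_cons, List.prod_nil, map_mul, map_one, map_zpow, map_inv, HNNExtension.lift_of,
        HNNExtension.lift_t]
      have e := hlaw t (a * t)
      have e2 : t ^ 2 * (a * t) ^ 2 * (t ^ 2)⁻¹ * ((a * t) ^ 2)⁻¹ = 1 := by
        rw [e]; group
      refine Eq.trans ?_ e2
      simp only [a', Subgroup.coe_subtype, Units.val_one, Units.val_neg, zpow_one, zpow_neg, pow_two]
      group
    have := HNNExtension.ReducedWord.toList_eq_nil_of_mem_of_range φ w
      (by rw [hp]; exact Subgroup.one_mem _)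
    simp [w] at this
  · push Not at hc
    have ht : t ∈ H := by
      apply hself
      intro x hx
      have hxA : x ∈ A := hA hx
      have e := h ⟨⟨x, hxA⟩, Subgroup.mem_subgroupOf.2 hx⟩
      have e' : t * x * t⁻¹ = A.subtype (φ ⟨⟨x, hxA⟩, Subgroup.mem_subgroupOf.2 hx⟩) := by
        have e1 : t * x = A.subtype (φ ⟨⟨x, hxA⟩, Subgroup.mem_subgroupOf.2 hx⟩) * t := e
        rw [e1]; group
      rw [e']
      exact hc _ (Subtype.property _)
    let t' : A := ⟨t, hA ht⟩
    let w : HNNExtension.NormalWord.ReducedWord A (H.subgroupOf A) C :=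
      { head := 1
        toList := [(1, 1)]
        chain := by simp }
    have hp : HNNExtension.NormalWord.ReducedWord.prod φ w = HNNExtension.of t' := by
      apply hinj
      simp only [w, HNNExtension.NormalWord.ReducedWord.prod, List.map_cons, List.map_nil,
        List.prod_cons, List.prod_nil, map_mul, map_one, map_zpow, HNNExtension.lift_of,
        HNNExtension.lift_t]
      simp [t']
    have := HNNExtension.ReducedWord.toList_eq_nil_of_mem_of_range φ w
      (by rw [hp]; exact ⟨t', rfl⟩)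
    simp [w] at this

/-- a group in which squares commute does not split over a subgroup that is not conjugated into
itself by any element outside it -/
theorem not_splits (hlaw : ∀ g h : K, g ^ 2 * h ^ 2 = h ^ 2 * g ^ 2)
    (hself : ∀ g : K, (∀ h ∈ H, g * h * g⁻¹ ∈ H) → g ∈ H) : ¬ SplitsOver K H := by
  rintro (⟨F, hF, hne, hb⟩ | ⟨A, hA, C, φ, t, h, hb⟩)
  · exact not_amalgam hlaw hself F hF hne
      (Monoid.PushoutI.lift (φ := fun i => Subgroup.inclusion (hF i))
        (fun i => (F i).subtype) H.subtype (fun _ => rfl))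
      (fun i x => Monoid.PushoutI.lift_of (φ := fun i => Subgroup.inclusion (hF i))
        (fun i => (F i).subtype) H.subtype (fun _ => rfl) x) hb.1
  · exact not_hnn hlaw hself A hA C φ t h hb.1

end

end Pool.Agent.H312PD
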