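import Mathlib
import Pool.Agent.H312PD.Inst3
import Pool.Agent.H312PD.Grp2
import Pool.Agent.H312PD.Split

namespace Pool.Agent.H312PD

/-- the subgroup `⟨x, t⟩` -/
def HH (u : Bool) : Subgroup (KK u) where
  carrier := {g | g.a = 0}
  one_mem' := rfl
  mul_mem' := by
    rintro x y (h1 : x.a = 0) (h2 : y.a = 0)
    change (x * y).a = 0
    simp [h1, h2]
  inv_mem' := by
    rintro x (h1 : x.a = 0)
    change (x⁻¹).a = 0
    simp [h1]

lemma mem_HH {u : Bool} {g : KK u} : g ∈ HH u ↔ g.a = 0 := Iff.rfl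

def eH (u : Bool) : K2 u ≃* HH u where
  toFun g := ⟨⟨0, g.a, g.c⟩, rfl⟩
  invFun g := ⟨g.1.b, g.1.c⟩
  left_inv g := rfl
  right_inv g := by
    obtain ⟨g, hg⟩ := g
    apply Subtype.ext
    exact KK.ext (mem_HH.1 hg).symm rfl rfl
  map_mul' g h := by
    apply Subtype.ext
    ext <;> simp

def eZ : K2 false ≃* Multiplicative (ℤ × ℤ) where
  toFun g := Multiplicative.ofAdd (g.a, g.c)
  invFun g := ⟨(Multiplicative.toAdd g).1, (Multiplicative.toAdd g).2⟩
  left_inv g := rfl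
  right_inv g := rfl
  map_mul' g h := by
    rw [← ofAdd_add]
    congr 1
    simp [sf]

lemma conj_a {u : Bool} (g : KK u) (h : (g * tt u * g⁻¹).a = 0) : g.a = 0 := by
  have e := sg_mul_self g.c
  simp only [KK.mul_a, KK.mul_c, KK.inv_a, tt_a, tt_c, sg_add, sg_one] at h
  have : 2 * g.a = 0 := by linear_combination h - g.a * e
  omega

lemma law {u : Bool} (g h : KK u) : g ^ 2 * h ^ 2 = h ^ 2 * g ^ 2 := by
  have e1 := sg_mul_self g.c
  have e2 := sg_mul_self h.c
  have e3 := sf_mul_self u g.c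
  have e4 := sf_mul_self u h.c
  simp only [pow_two]
  ext
  · simp only [KK.mul_a, KK.mul_c, sg_add, e1, e2]; ring
  · simp only [KK.mul_b, KK.mul_c, sf_add, e3, e4]; ring
  · simp only [KK.mul_c]; ring

lemma norm_HH (u : Bool) : Subgroup.normalizer (HH u : Set (KK u)) = HH u := by
  apply le_antisymm
  · intro g hg
    have h1 := (Subgroup.mem_normalizer_iff.1 hg (tt u)).1 (show (tt u).a = 0 from rfl)
    exact conj_a g h1
  · exact Subgroup.le_normalizer

lemma no_split (u : Bool) (G₁ : Subgroup (KK u)) (hG : HH u ≤ G₁) :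
    ¬ SplitsOver G₁ ((HH u).subgroupOf G₁) := by
  apply not_splits
  · intro g h
    apply Subtype.ext
    exact law (g : KK u) (h : KK u)
  · intro g hg
    have ht : tt u ∈ HH u := show (tt u).a = 0 from rfl
    have h1 := hg ⟨tt u, hG ht⟩ (Subgroup.mem_subgroupOf.2 ht)
    rw [Subgroup.mem_subgroupOf] at h1 ⊢
    exact conj_a (g : KK u) h1

lemma K2_true_nonab : ¬ ∀ a b : K2 true, a * b = b * a := by
  intro h
  have h1 := congrArg K2.a (h ⟨1, 0⟩ ⟨0, 1⟩)
  simp [sf] at h1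

lemma HH_true_nonab : ¬ ∀ a b : HH true, a * b = b * a := by
  intro h
  apply K2_true_nonab
  intro a b
  apply (eH true).injective
  rw [map_mul, map_mul, h]

theorem main :
    (∃ (G : Type) (_ : Group G) (H : Subgroup G), IsPD 3 G ∧ IsPD 2 H ∧
      Nonempty (H ≃* Multiplicative (ℤ × ℤ)) ∧ Subgroup.normalizer (H : Set G) = H ∧
      ∀ G₁ : Subgroup G, G₁.FiniteIndex → H ≤ G₁ → ¬ SplitsOver G₁ (H.subgroupOf G₁)) ∧
    (∃ (G : Type) (_ : Group G) (H : Subgroup G), IsPD 3 G ∧ IsPD 2 H ∧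
      (¬ ∀ a b : H, a * b = b * a) ∧ Subgroup.normalizer (H : Set G) = H ∧
      ∀ G₁ : Subgroup G, G₁.FiniteIndex → H ≤ G₁ → ¬ SplitsOver G₁ (H.subgroupOf G₁)) :=
  ⟨⟨KK false, inferInstance, HH false, isPD3 false, isPD2_of_equiv false (eH false),
      ⟨(eH false).symm.trans eZ⟩, norm_HH false, fun G₁ _ h => no_split false G₁ h⟩,
    ⟨KK true, inferInstance, HH true, isPD3 true, isPD2_of_equiv true (eH true),
      HH_true_nonab, norm_HH true, fun G₁ _ h => no_split true G₁ h⟩⟩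

end Pool.Agent.H312PD
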